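import Pool.Agent.RP39.Main
import Pool.Agent.RP38.HWb

/-!
# Small weights near the top (MP_d975fc_co, S11783)
-/

namespace RP38

open Real

theorem wbound {m n : ℕ} (hm : 4 ≤ m) (hn : n = 2 * m + 1) : WBound n m := by
  intro h h2 hm' hb
  exact WH_le hm hn h2 hm' hb

theorem WH_small {m n : ℕ} (hn : n = 2 * m + 1) {h : ℕ} (hm : h < m) (hb : 147 / 100 < b n h) :
    WH n m h ≤ 1 / 900 := by
  have hn0 : (0 : ℝ) < n := by rw [hn]; positivity
  have hpi := pi_lt_d4
  have h2 : m ≤ 2 * h - 1 := by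
    by_contra hcon
    have h3 : 2 * h ≤ m := by omega
    have h4 : 4 * (h : ℝ) ≤ n := by
      have : 4 * h ≤ n := by omega
      exact_mod_cast this
    have : b n h ≤ π / 4 := by
      unfold b
      rw [div_le_div_iff₀ hn0 (by norm_num)]
      nlinarith [pi_pos]
    linarith
  have h1 : 1 ≤ h := by
    by_contra hcon
    have : h = 0 := by omega
    subst this
    simp [b] at hb
    linarith
  rw [WH_top_half h1 hm h2]
  have hlt := b_lt_half hn hm.le
  have h0 : 0 ≤ b n h := by linarith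
  refine (EE_le_four h0 hlt.le).trans ?_
  have h5 : π / 2 - b n h ≤ 101 / 1000 := by linarith
  have h6 : 0 ≤ π / 2 - b n h := by linarith
  have h7 : (π / 2 - b n h) ^ 4 ≤ (101 / 1000) ^ 4 := pow_le_pow_left₀ h6 h5 4
  norm_num at h7 ⊢
  linarith

end RP38
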