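import Mathlib

/-!
# One-variable polynomial inequalities for the class one (MP_d975fc_co, S11783)
-/

namespace RP38

theorem poly_o1 {x : ℝ} (h0 : 0 ≤ x) (h1 : x ≤ 93/250) :
    0 ≤ 3693939 + (-14755998) * x + (14519375) * x ^ 2 + (1269302) * x ^ 3 + (10561153) * x ^ 4 + (2453814) * x ^ 5 + (-19772667) * x ^ 6 + (-1271214) * x ^ 7 + (9585000) * x ^ 8 + (-1350000) * x ^ 10 := by
  have ha : 0 ≤ x - (0) := by linarith
  have hb : 0 ≤ (93/250) - x := by linarith
  have e : 3693939 + (-14755998) * x + (14519375) * x ^ 2 + (1269302) * x ^ 3 + (10561153) * x ^ 4 + (2453814) * x ^ 5 + (-19772667) * x ^ 6 + (-1271214) * x ^ 7 + (9585000) * x ^ 8 + (-1350000) * x ^ 10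
      = (1174271583557128906250000000000/16132743572643106083) * (x - (0)) ^ 0 * ((93/250) - x) ^ 10 + (9997736213684082031250000000000/16132743572643106083) * (x - (0)) ^ 1 * ((93/250) - x) ^ 9 + (12592042593002319335937500000000/5377581190881035361) * (x - (0)) ^ 2 * ((93/250) - x) ^ 8 + (9247097810417602539062500000000/1792527063627011787) * (x - (0)) ^ 3 * ((93/250) - x) ^ 7 + (39370895461754862548828125000000/5377581190881035361) * (x - (0)) ^ 4 * ((93/250) - x) ^ 6 + (37548340277463732595703125000000/5377581190881035361) * (x - (0)) ^ 5 * ((93/250) - x) ^ 5 + (24380915773951557107863281250000/5377581190881035361) * (x - (0)) ^ 6 * ((93/250) - x) ^ 4 + (3567133745392267055623843750000/1792527063627011787) * (x - (0)) ^ 7 * ((93/250) - x) ^ 3 + (3087782647873576206298343750000/5377581190881035361) * (x - (0)) ^ 8 * ((93/250) - x) ^ 2 + (1641038286861723856477531250000/16132743572643106083) * (x - (0)) ^ 9 * ((93/250) - x) ^ 1 + (142676542717932455789037950000/16132743572643106083) * (x - (0)) ^ 10 * ((93/250) - x)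 ^ 0 := by ring
  rw [e]; positivity

theorem poly_o2 {x : ℝ} (h0 : 0 ≤ x) (h1 : x ≤ 93/250) :
    0 ≤ 81000 + (-243696) * x + (118800) * x ^ 2 + (262019) * x ^ 3 + (-102600) * x ^ 4 + (-106137) * x ^ 5 + (32400) * x ^ 6 + (-32373) * x ^ 7 + (34425) * x ^ 9 + (-6750) * x ^ 11 := by
  have ha : 0 ≤ x - (0) := by linarith
  have hb : 0 ≤ (93/250) - x := by linarith
  have e : 81000 + (-243696) * x + (118800) * x ^ 2 + (262019) * x ^ 3 + (-102600) * x ^ 4 + (-106137) * x ^ 5 + (32400) * x ^ 6 + (-32373) * x ^ 7 + (34425) * x ^ 9 + (-6750) * x ^ 11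
      = (238418579101562500000000000000/55568338972437365397) * (x - (0)) ^ 0 * ((93/250) - x) ^ 11 + (21201904296875000000000000000000/500115050751936288573) * (x - (0)) ^ 1 * ((93/250) - x) ^ 10 + (94437358093261718750000000000000/500115050751936288573) * (x - (0)) ^ 2 * ((93/250) - x) ^ 9 + (83419813660110473632812500000000/166705016917312096191) * (x - (0)) ^ 3 * ((93/250) - x) ^ 8 + (16237182320788574218750000000000/18522779657479121799) * (x - (0)) ^ 4 * ((93/250) - x) ^ 7 + (177741903553296586181640625000000/166705016917312096191) * (x - (0)) ^ 5 * ((93/250) - x) ^ 6 + (153277056234288929980468750000000/166705016917312096191) * (x - (0)) ^ 6 * ((93/250) - x) ^ 5 + (93852053346708949569753906250000/166705016917312096191) * (x - (0)) ^ 7 * ((93/250) - x) ^ 4 + (13361934878687434712796875000000/55568338972437365397) * (x - (0)) ^ 8 * ((93/250) - x) ^ 3 + (11418618705352600846807723437500/166705016917312096191) * (x - (0)) ^ 9 * ((93/250) - x) ^ 2 + (5889981125017547828627590625000/500115050751936288573) * (x - (0))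 ^ 10 * ((93/250) - x) ^ 1 + (466536233481112072841503694750/500115050751936288573) * (x - (0)) ^ 11 * ((93/250) - x) ^ 0 := by ring
  rw [e]; positivity

end RP38
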