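import Pool.Agent.RP39.Main
import Pool.Agent.RP39.PolyOne

/-!
# The two loads of the class one (MP_d975fc_co, S11783)
-/

namespace RP38

open Real

/-- the two arrivals of the class one -/
theorem one_le {m n : ℕ} (hm : 4 ≤ m) (hn : n = 2 * m + 1) (hW : WBound n m)
    {α β y : ℝ} (hα : 0 ≤ α) (hβ : 0 ≤ β) (hy : y = tan (b n 1)) :
    (0 < y ∧ y ≤ 93 / 250) ∧
    cm n m 1 * (α * tan (b n (1 - 1)) + β * tan (b n (1 - 1)) ^ 2)
      + c0 n m 1 * (α * tan (b n 1) + β * tan (b n 1) ^ 2)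
      + cp n m 1 * (α * tan (b n (1 + 1)) + β * tan (b n (1 + 1)) ^ 2)
    ≤ 1062 / 1000 * (1 + y ^ 2 / 3) * (α + β * y) - 6 / 5 * (α * y + β * y ^ 2)
      + (2891 / 4500 * (1 + y ^ 2 / 3) - 6 / 5 * y)
        * ((2 * α * (1 - y ^ 2) + 4 * β * y) / ((1 - y ^ 2) * (3 - y ^ 2))) := by
  have hn9 : (9 : ℝ) ≤ n := by
    have : 9 ≤ n := by omega
    exact_mod_cast this
  have hn0 : (0 : ℝ) < n := by linarith
  have hpi := pi_lt_d4
  set δ := b n 1 with hδ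
  have hδ0 : 0 < δ := by rw [hδ]; unfold b; positivity
  have hδ1 : δ ≤ 3491 / 10000 := by
    rw [hδ]; unfold b
    rw [Nat.cast_one, mul_one, div_le_iff₀ hn0]
    nlinarith
  have hcos : 939 / 1000 ≤ cos δ := by
    have := one_sub_sq_div_two_le_cos (x := δ)
    nlinarith
  have hy0 : 0 < y := by
    rw [hy]; exact tan_pos_of_pos_of_lt_pi_div_two hδ0 (by linarith [pi_gt_three])
  have hy1 : y ≤ 93 / 250 := by
    rw [hy, tan_eq_sin_div_cos, div_le_iff₀ (by linarith)]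
    have := sin_le hδ0.le
    nlinarith
  refine ⟨⟨hy0, hy1⟩, ?_⟩
  have hu : y ^ 2 ≤ 14 / 100 := by nlinarith
  have k1 : 0 < 1 - y ^ 2 := by linarith
  have k3 : 0 < 3 - y ^ 2 := by linarith
  have hyδ : y / δ ≤ 1 + y ^ 2 / 3 := by
    have := three_mul_tan_le hδ0.le (by linarith [pi_gt_three] : δ < π / 2)
    rw [← hy] at this
    rw [div_le_iff₀ hδ0]
    nlinarith
  have e2 : b n 2 = 2 * δ := by rw [hδ]; unfold b; push_cast; ring
  have e3 : b n 3 = 3 * δ := by rw [hδ]; unfold b; push_cast; ring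
  have w2 : c0 n m 1 ≤ 1062 / 1000 / δ - 6 / 5 := by
    have h := hW 2 le_rfl (by omega) (by rw [e2]; linarith)
    rw [e2] at h
    have : 177 / 100 / (2 * δ) * (1 + 4 / 5 / ((2 : ℕ) : ℝ) ^ 2) - 6 / 5 = 1062 / 1000 / δ - 6 / 5 := by
      push_cast
      field_simp
      ring
    rw [this] at h
    exact h
  have w3 : WH n m (2 * 1 + 1) ≤ 59 / 100 * (49 / 45) / δ - 6 / 5 := by
    have h := hW 3 (by norm_num) (by omega) (by rw [e3]; linarith)
    rw [e3] at h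
    have : 177 / 100 / (3 * δ) * (1 + 4 / 5 / ((3 : ℕ) : ℝ) ^ 2) - 6 / 5
        = 59 / 100 * (49 / 45) / δ - 6 / 5 := by
      push_cast
      field_simp
      ring
    rw [this] at h
    exact h
  have hcm : cm n m 1 = 0 := by unfold cm; simp
  have ht2 : tan (b n (1 + 1)) = 2 * y / (1 - y ^ 2) := by
    have : b n (1 + 1) = 2 * δ := e2
    rw [this, tan_two_mul, hy]
  have hWp0 : 0 ≤ WH n m (2 * 1 + 1) := WH_nonneg' hn _
  have kp : sh n 1 (1 + 1) * (α * tan (b n (1 + 1)) + β * tan (b n (1 + 1)) ^ 2)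
      = y * ((2 * α * (1 - y ^ 2) + 4 * β * y) / ((1 - y ^ 2) * (3 - y ^ 2))) := by
    rw [sh_tan hn (by omega) (by omega), ht2, ← hδ, ← hy]
    have n1 := k1.ne'
    have n3 := k3.ne'
    have e1 : y + 2 * y / (1 - y ^ 2) = y * (3 - y ^ 2) / (1 - y ^ 2) := by
      field_simp
      ring
    rw [e1]
    field_simp
    ring
  set R := (2 * α * (1 - y ^ 2) + 4 * β * y) / ((1 - y ^ 2) * (3 - y ^ 2)) with hR
  have hR0 : 0 ≤ R := by rw [hR]; positivity
  have T2 : c0 n m 1 * (α * tan δ + β * tan δ ^ 2)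
      ≤ 1062 / 1000 * (1 + y ^ 2 / 3) * (α + β * y) - 6 / 5 * (α * y + β * y ^ 2) := by
    rw [← hy]
    have hk : 0 ≤ α * y + β * y ^ 2 := by positivity
    have h1 := mul_le_mul_of_nonneg_right w2 hk
    have h2 : (1062 / 1000 / δ - 6 / 5) * (α * y + β * y ^ 2)
        = 1062 / 1000 * (y / δ) * (α + β * y) - 6 / 5 * (α * y + β * y ^ 2) := by
      field_simp
    have h3 : 1062 / 1000 * (y / δ) * (α + β * y) ≤ 1062 / 1000 * (1 + y ^ 2 / 3) * (α + β * y) := by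
      apply mul_le_mul_of_nonneg_right _ (by positivity)
      linarith
    linarith
  have T3 : cp n m 1 * (α * tan (b n (1 + 1)) + β * tan (b n (1 + 1)) ^ 2)
      ≤ (2891 / 4500 * (1 + y ^ 2 / 3) - 6 / 5 * y) * R := by
    have h0 : cp n m 1 * (α * tan (b n (1 + 1)) + β * tan (b n (1 + 1)) ^ 2)
        = WH n m (2 * 1 + 1) * (sh n 1 (1 + 1)
          * (α * tan (b n (1 + 1)) + β * tan (b n (1 + 1)) ^ 2)) := by
      unfold cp; ring
    rw [h0, kp]
    have h2 := mul_le_mul_of_nonneg_right w3 (mul_nonneg hy0.le hR0)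
    have h3 : (59 / 100 * (49 / 45) / δ - 6 / 5) * (y * R)
        = (59 / 100 * (49 / 45) * (y / δ) - 6 / 5 * y) * R := by
      field_simp
    have h4 : (59 / 100 * (49 / 45) * (y / δ) - 6 / 5 * y) * R
        ≤ (2891 / 4500 * (1 + y ^ 2 / 3) - 6 / 5 * y) * R := by
      apply mul_le_mul_of_nonneg_right _ hR0
      have : 59 / 100 * (49 / 45) * (y / δ) ≤ 59 / 100 * (49 / 45) * (1 + y ^ 2 / 3) := by
        linarith
      have h5 : 59 / 100 * (49 / 45) * (1 + y ^ 2 / 3)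
          ≤ 2891 / 4500 * (1 + y ^ 2 / 3) := by
        apply mul_le_mul_of_nonneg_right (by norm_num) (by positivity)
      linarith
    linarith
  rw [hcm, zero_mul, zero_add]
  exact add_le_add T2 T3

theorem load1_one {m n : ℕ} (hm : 4 ≤ m) (hn : n = 2 * m + 1) (hW : WBound n m) :
    cm n m 1 * ((365 * tan (b n (1 - 1)) + 1330 * tan (b n (1 - 1)) ^ 2) / 1000)
      + c0 n m 1 * ((365 * tan (b n 1) + 1330 * tan (b n 1) ^ 2) / 1000)
      + cp n m 1 * ((365 * tan (b n (1 + 1)) + 1330 * tan (b n (1 + 1)) ^ 2) / 1000)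
      + max (-phi n 1) 0 ≤ 1 := by
  obtain ⟨⟨hy0, hy1⟩, h⟩ := one_le hm hn hW (α := 73 / 200) (β := 133 / 100) (y := tan (b n 1))
    (by norm_num) (by norm_num) rfl
  have hph := max_phi_le hn (by omega : 1 ≤ m) rfl hy0.le (by linarith)
  have hp := poly_o1 hy0.le hy1
  set y := tan (b n 1) with hy
  have hu : y ^ 2 ≤ 14 / 100 := by nlinarith
  have k1 : 0 < 1 - y ^ 2 := by linarith
  have k3 : 0 < 3 - y ^ 2 := by linarith
  have e : 1 - (1062 / 1000 * (1 + y ^ 2 / 3) * (73 / 200 + 133 / 100 * y)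
        - 6 / 5 * (73 / 200 * y + 133 / 100 * y ^ 2)
      + (2891 / 4500 * (1 + y ^ 2 / 3) - 6 / 5 * y)
        * ((2 * (73 / 200) * (1 - y ^ 2) + 4 * (133 / 100) * y) / ((1 - y ^ 2) * (3 - y ^ 2)))
      + y ^ 2 * (109 / 100 - 155 / 100 * y ^ 2 + y ^ 4 / 2))
      = (3693939 + (-14755998) * y + (14519375) * y ^ 2 + (1269302) * y ^ 3 + (10561153) * y ^ 4 + (2453814) * y ^ 5 + (-19772667) * y ^ 6 + (-1271214) * y ^ 7 + (9585000) * y ^ 8 + (-1350000) * y ^ 10)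
        / (2700000 * ((1 - y ^ 2) * (3 - y ^ 2))) := by
    have n1 := k1.ne'
    have n3 := k3.ne'
    field_simp
    ring
  have h3 := div_nonneg hp (show 0 ≤ 2700000 * ((1 - y ^ 2) * (3 - y ^ 2)) by positivity)
  rw [← e] at h3
  have e5 : cm n m 1 * ((365 * tan (b n (1 - 1)) + 1330 * tan (b n (1 - 1)) ^ 2) / 1000)
      + c0 n m 1 * ((365 * y + 1330 * y ^ 2) / 1000)
      + cp n m 1 * ((365 * tan (b n (1 + 1)) + 1330 * tan (b n (1 + 1)) ^ 2) / 1000)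
      = cm n m 1 * (73 / 200 * tan (b n (1 - 1)) + 133 / 100 * tan (b n (1 - 1)) ^ 2)
      + c0 n m 1 * (73 / 200 * y + 133 / 100 * y ^ 2)
      + cp n m 1 * (73 / 200 * tan (b n (1 + 1)) + 133 / 100 * tan (b n (1 + 1)) ^ 2) := by ring
  rw [e5]
  linarith

theorem load2_one {m n : ℕ} (hm : 4 ≤ m) (hn : n = 2 * m + 1) (hW : WBound n m) :
    cm n m 1 * tan (b n (1 - 1)) ^ 2 + c0 n m 1 * tan (b n 1) ^ 2
      + cp n m 1 * tan (b n (1 + 1)) ^ 2 + max (-phi n 1) 0 / sin (b n 1) ≤ 1 := by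
  obtain ⟨⟨hy0, hy1⟩, h⟩ := one_le hm hn hW (α := 0) (β := 1) (y := tan (b n 1))
    (by norm_num) (by norm_num) rfl
  have hph := max_phi_div_le hn le_rfl (by omega : 1 ≤ m) rfl hy0.le (by linarith)
  have hp := poly_o2 hy0.le hy1
  set y := tan (b n 1) with hy
  have hu : y ^ 2 ≤ 14 / 100 := by nlinarith
  have k1 : 0 < 1 - y ^ 2 := by linarith
  have k3 : 0 < 3 - y ^ 2 := by linarith
  have e : 1 - (1062 / 1000 * (1 + y ^ 2 / 3) * (0 + 1 * y) - 6 / 5 * (0 * y + 1 * y ^ 2)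
      + (2891 / 4500 * (1 + y ^ 2 / 3) - 6 / 5 * y)
        * ((2 * 0 * (1 - y ^ 2) + 4 * 1 * y) / ((1 - y ^ 2) * (3 - y ^ 2)))
      + y * (109 / 100 - 155 / 100 * y ^ 2 + y ^ 4 / 2) * (1 + y ^ 2 / 2))
      = (81000 + (-243696) * y + (118800) * y ^ 2 + (262019) * y ^ 3 + (-102600) * y ^ 4 + (-106137) * y ^ 5 + (32400) * y ^ 6 + (-32373) * y ^ 7 + (34425) * y ^ 9 + (-6750) * y ^ 11)
        / (27000 * ((1 - y ^ 2) * (3 - y ^ 2))) := by
    have n1 := k1.ne'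
    have n3 := k3.ne'
    field_simp
    ring
  have h3 := div_nonneg hp (show 0 ≤ 27000 * ((1 - y ^ 2) * (3 - y ^ 2)) by positivity)
  rw [← e] at h3
  have e5 : cm n m 1 * tan (b n (1 - 1)) ^ 2 + c0 n m 1 * y ^ 2 + cp n m 1 * tan (b n (1 + 1)) ^ 2
      = cm n m 1 * (0 * tan (b n (1 - 1)) + 1 * tan (b n (1 - 1)) ^ 2)
      + c0 n m 1 * (0 * y + 1 * y ^ 2)
      + cp n m 1 * (0 * tan (b n (1 + 1)) + 1 * tan (b n (1 + 1)) ^ 2) := by ring
  rw [e5]
  linarith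

end RP38
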