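import Pool.Agent.RP39.Region1
import Pool.Agent.RP38.HWb

/-!
# The loads of a class `g` with `b (2 g + 1) > 1.47` (MP_d975fc_co, S11783), helper68
-/

namespace RP38

open Real

private lemma top_basic {m n g : ℕ} (hm : 4 ≤ m) (hn : n = 2 * m + 1) (hg : 2 ≤ g) (hgm : 2 * g ≤ m)
    (hb : 147 / 100 < b n (2 * g + 1)) :
    0 < b n 1 ∧ b n 1 ≤ 3491 / 10000 ∧ b n g ≤ π / 4 - b n 1 / 4 ∧
      147 / 100 < 2 * b n g + b n 1 := by
  have hn0 : (0 : ℝ) < n := by rw [hn]; positivity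
  have hn9 : (9 : ℝ) ≤ n := by
    have : 9 ≤ n := by omega
    exact_mod_cast this
  have hd : b n 1 * n = π := by unfold b; field_simp; simp
  have hd0 : 0 < b n 1 := by unfold b; positivity
  refine ⟨hd0, ?_, ?_, ?_⟩
  · have := pi_lt_d4
    nlinarith
  · have h2 : (4 * (g : ℝ)) + 1 ≤ n := by
      have : 4 * g + 1 ≤ n := by omega
      exact_mod_cast this
    rw [b_eq n g]
    nlinarith
  · rw [b_eq n (2 * g + 1)] at hb
    rw [b_eq n g]
    push_cast at hb
    linarith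

private lemma tan_le_top {β : ℝ} (h0 : 0 ≤ β) (h1 : β ≤ π / 4) : 0 ≤ tan β ∧ tan β ≤ 1 := by
  constructor
  · exact tan_nonneg_of_nonneg_of_le_pi_div_two h0 (by linarith [pi_pos])
  · rw [← tan_pi_div_four]
    rcases eq_or_lt_of_le h1 with h | h
    · rw [h]
    · exact (tan_lt_tan_of_lt_of_lt_pi_div_two (by linarith [pi_pos]) (by linarith [pi_pos]) h).le

private lemma top_c0 {m n g : ℕ} (hm : 4 ≤ m) (hn : n = 2 * m + 1) (hg : 2 ≤ g) (hgm : 2 * g ≤ m)
    (hb : 147 / 100 < b n (2 * g + 1))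
    (hW : ∀ h : ℕ, 2 ≤ h → h < m → b n h ≤ 147 / 100 →
      WH n m h ≤ 177 / 100 / b n h * (1 + 4 / 5 / (h : ℝ) ^ 2) - 6 / 5)
    (hW2 : ∀ h : ℕ, h < m → 147 / 100 < b n h → WH n m h ≤ 1 / 900) :
    c0 n m g ≤ 2270 / 10000 := by
  obtain ⟨hd0, hd1, hG4, hG⟩ := top_basic hm hn hg hgm hb
  unfold c0
  by_cases h2 : 2 * g < m
  · by_cases h3 : b n (2 * g) ≤ 147 / 100
    · have hd : b n 1 * n = π := by
        have hn0 : (0 : ℝ) < n := by rw [hn]; positivity
        unfold b; field_simp; simp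
      have e : b n (2 * g) = 2 * b n g := by rw [b_eq n (2 * g), b_eq n g]; push_cast; ring
      have h4 : (4 * (g : ℝ)) + 3 ≤ n := by
        have : 4 * g + 3 ≤ n := by omega
        exact_mod_cast this
      have h5 : 2 * b n g + 3 / 2 * b n 1 ≤ π / 2 := by
        rw [b_eq n g]; nlinarith
      have hpi := pi_lt_d4
      have hd2 : b n 1 < 2017 / 10000 := by norm_num at hpi; linarith
      have h6 : 12683 / 10000 < b n (2 * g) := by rw [e]; linarith
      have h7 : (6 : ℝ) < ((2 * g : ℕ) : ℝ) := by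
        have h8 : b n (2 * g) = ((2 * g : ℕ) : ℝ) * b n 1 := b_eq n (2 * g)
        by_contra hcon
        push Not at hcon
        have : ((2 * g : ℕ) : ℝ) * b n 1 ≤ 6 * b n 1 := mul_le_mul_of_nonneg_right hcon hd0.le
        linarith
      refine le_trans (hW (2 * g) (by omega) h2 h3) ?_
      have h9 : 4 / 5 / ((2 * g : ℕ) : ℝ) ^ 2 ≤ 4 / 5 / 36 := by
        apply div_le_div_of_nonneg_left (by norm_num) (by norm_num)
        nlinarith
      have h10 : 177 / 100 / b n (2 * g) ≤ 177 / 100 / (12683 / 10000) := by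
        apply div_le_div_of_nonneg_left (by norm_num) (by norm_num) h6.le
      have h11 : 177 / 100 / b n (2 * g) * (1 + 4 / 5 / ((2 * g : ℕ) : ℝ) ^ 2)
          ≤ 177 / 100 / (12683 / 10000) * (1 + 4 / 5 / 36) := by
        apply mul_le_mul h10 (by linarith) (by positivity) (by norm_num)
      refine le_trans (sub_le_sub_right h11 _) ?_
      norm_num
    · push Not at h3
      exact le_trans (hW2 _ h2 h3) (by norm_num)
  · rw [WH_top (by omega)]
    norm_num

private lemma top_cp {m n g : ℕ} (hn : n = 2 * m + 1) (hgm : 2 * g ≤ m)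
    (hb : 147 / 100 < b n (2 * g + 1))
    (hW2 : ∀ h : ℕ, h < m → 147 / 100 < b n h → WH n m h ≤ 1 / 900) :
    cp n m g * tan (b n (g + 1)) ≤ 1 / 900 ∧ cp n m g * tan (b n (g + 1)) ^ 2 ≤ 1 / 900 := by
  unfold cp
  by_cases h2 : 2 * g + 1 < m
  · have hn0 : 0 < n := by omega
    have h3 := hW2 _ h2 hb
    have h4 := WH_nonneg' hn (2 * g + 1)
    have hq : b n (g + 1) ≤ π / 4 := by
      unfold b
      have h1 : (0 : ℝ) < n := by exact_mod_cast hn0
      have h2 : 4 * ((g + 1 : ℕ) : ℝ) < n := by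
        have : 4 * (g + 1) < n := by omega
        exact_mod_cast this
      rw [div_le_div_iff₀ h1 (by norm_num)]
      nlinarith [pi_pos]
    obtain ⟨ht0, ht1⟩ := tan_le_top (b_nonneg' n (g + 1)) hq
    have hs0 : 0 ≤ sh n g (g + 1) := sh_nonneg hn0 (by omega)
    have hs1 : sh n g (g + 1) ≤ 1 := by
      rw [sh_tan hn (by omega) (by omega)]
      have hx : 0 ≤ tan (b n g) := tan_nonneg_of_nonneg_of_le_pi_div_two (b_nonneg' n g)
        (b_lt_half hn (by omega)).le
      exact div_le_one_of_le₀ (by linarith) (by linarith)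
    have hp0 : 0 ≤ sh n g (g + 1) * WH n m (2 * g + 1) := mul_nonneg hs0 h4
    have hp1 : sh n g (g + 1) * WH n m (2 * g + 1) ≤ 1 / 900 := by
      calc sh n g (g + 1) * WH n m (2 * g + 1) ≤ 1 * (1 / 900) := mul_le_mul hs1 h3 h4 (by norm_num)
        _ = 1 / 900 := by norm_num
    have ht2 : tan (b n (g + 1)) ^ 2 ≤ 1 := by nlinarith
    constructor
    · calc _ ≤ 1 / 900 * (1 : ℝ) := mul_le_mul hp1 ht1 ht0 (by norm_num)
        _ = 1 / 900 := by norm_num
    · calc _ ≤ 1 / 900 * (1 : ℝ) := mul_le_mul hp1 ht2 (by positivity) (by norm_num)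
        _ = 1 / 900 := by norm_num
  · rw [WH_top (by omega)]
    norm_num

private lemma top_cm {m n g : ℕ} (hm : 4 ≤ m) (hn : n = 2 * m + 1) (hg : 2 ≤ g) (hgm : 2 * g ≤ m)
    (hb : 147 / 100 < b n (2 * g + 1))
    (hW : ∀ h : ℕ, 2 ≤ h → h < m → b n h ≤ 147 / 100 →
      WH n m h ≤ 177 / 100 / b n h * (1 + 4 / 5 / (h : ℝ) ^ 2) - 6 / 5)
    (hW2 : ∀ h : ℕ, h < m → 147 / 100 < b n h → WH n m h ≤ 1 / 900)
    {α β y : ℝ} (hα : 0 ≤ α) (hβ : 0 ≤ β) (hy : y = 5 / 4 * b n 1) :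
    cm n m g * (α * tan (b n (g - 1)) + β * tan (b n (g - 1)) ^ 2) ≤
      (1 - y) / 2 * (α + β * ((1 - y) / (1 + y))) * (8673 / 4500 / (147 / 100 - 8 / 5 * y) - 6 / 5) := by
  obtain ⟨hd0, hd1, hG4, hG⟩ := top_basic hm hn hg hgm hb
  have hn0 : 0 < n := by omega
  have hpi := pi_lt_d4
  have hpi0 := pi_pos
  have hy0 : 0 < y := by rw [hy]; linarith
  have hy1 : y ≤ 4364 / 10000 := by rw [hy]; linarith
  -- the tangents
  have em1 : b n (g - 1) = b n g - b n 1 := by
    rw [b_eq n (g - 1), b_eq n g, Nat.cast_sub (by omega : 1 ≤ g)]; push_cast; ring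
  have hbg0 : 0 < b n g := b_pos' hn0 (by omega)
  have hbg1 : 0 < b n (g - 1) := b_pos' hn0 (by omega)
  obtain ⟨hx0, hx1⟩ := tan_le_top hbg0.le (by linarith : b n g ≤ π / 4)
  have hz0 : 0 ≤ tan (b n (g - 1)) := (tan_le_top hbg1.le (by linarith)).1
  have hx0' : 0 < tan (b n g) := tan_pos_of_pos_of_lt_pi_div_two hbg0 (by linarith)
  have hzZ : tan (b n (g - 1)) ≤ (1 - y) / (1 + y) := by
    have h1 : b n (g - 1) ≤ π / 4 - y := by rw [em1, hy]; linarith
    have hty : y ≤ tan y := le_tan hy0.le (by linarith [pi_gt_d2])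
    have hty1 : tan y < 1 := by
      rw [← tan_pi_div_four]
      exact tan_lt_tan_of_lt_of_lt_pi_div_two (by linarith) (by linarith) (by linarith [pi_gt_d2])
    have h2 : tan (π / 4 - y) = (1 - tan y) / (1 + tan y) := by
      have hc : cos y ≠ 0 := (cos_pos_of_mem_Ioo ⟨by linarith, by linarith [pi_gt_d2]⟩).ne'
      have hcs : 0 < cos y + sin y := by
        have h3 := cos_pos_of_mem_Ioo (x := y) ⟨by linarith, by linarith [pi_gt_d2]⟩
        have h4 := sin_pos_of_pos_of_lt_pi hy0 (by linarith [pi_gt_d2])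
        linarith
      have hr : (0 : ℝ) < √2 / 2 := by positivity
      rw [tan_eq_sin_div_cos (π / 4 - y), sin_sub, cos_sub, sin_pi_div_four, cos_pi_div_four,
        tan_eq_sin_div_cos y]
      have e1 : √2 / 2 * cos y - √2 / 2 * sin y = √2 / 2 * (cos y - sin y) := by ring
      have e2 : √2 / 2 * cos y + √2 / 2 * sin y = √2 / 2 * (cos y + sin y) := by ring
      rw [e1, e2, mul_div_mul_left _ _ hr.ne']
      field_simp
    have h3 : tan (b n (g - 1)) ≤ tan (π / 4 - y) := by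
      rcases eq_or_lt_of_le h1 with h | h
      · rw [h]
      · exact (tan_lt_tan_of_lt_of_lt_pi_div_two (by linarith) (by linarith) h).le
    refine le_trans h3 ?_
    rw [h2, div_le_div_iff₀ (by linarith) (by linarith)]
    nlinarith
  -- the weight
  have hWm : WH n m (2 * g - 1) ≤ 8673 / 4500 / (147 / 100 - 8 / 5 * y) - 6 / 5 := by
    have hden : 0 < 147 / 100 - 8 / 5 * y := by linarith
    have hlow : (1 : ℝ) / 900 ≤ 8673 / 4500 / (147 / 100 - 8 / 5 * y) - 6 / 5 := by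
      rw [le_sub_iff_add_le, le_div_iff₀ hden]
      nlinarith
    by_cases h3 : b n (2 * g - 1) ≤ 147 / 100
    · refine le_trans (hW (2 * g - 1) (by omega) (by omega) h3) ?_
      have e : b n (2 * g - 1) = 2 * b n g - b n 1 := by
        rw [b_eq n (2 * g - 1), b_eq n g, Nat.cast_sub (by omega : 1 ≤ 2 * g)]; push_cast; ring
      have h4 : 147 / 100 - 8 / 5 * y ≤ b n (2 * g - 1) := by rw [e, hy]; linarith
      have h5 : (3 : ℝ) ≤ ((2 * g - 1 : ℕ) : ℝ) := by
        have : 3 ≤ 2 * g - 1 := by omega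
        exact_mod_cast this
      have h6 : 4 / 5 / ((2 * g - 1 : ℕ) : ℝ) ^ 2 ≤ 4 / 5 / 9 := by
        apply div_le_div_of_nonneg_left (by norm_num) (by norm_num)
        nlinarith
      have h7 : 177 / 100 / b n (2 * g - 1) ≤ 177 / 100 / (147 / 100 - 8 / 5 * y) :=
        div_le_div_of_nonneg_left (by norm_num) hden h4
      have h8 : 177 / 100 / b n (2 * g - 1) * (1 + 4 / 5 / ((2 * g - 1 : ℕ) : ℝ) ^ 2)
          ≤ 177 / 100 / (147 / 100 - 8 / 5 * y) * (1 + 4 / 5 / 9) := by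
        apply mul_le_mul h7 (by linarith) (by positivity) (by positivity)
      have e2 : 177 / 100 / (147 / 100 - 8 / 5 * y) * (1 + 4 / 5 / 9)
          = 8673 / 4500 / (147 / 100 - 8 / 5 * y) := by
        field_simp
        norm_num
      rw [e2] at h8
      linarith
    · push Not at h3
      exact le_trans (hW2 _ (by omega) h3) hlow
  have hW0 := WH_nonneg' hn (2 * g - 1)
  -- the share
  have hfr : sh n g (g - 1) * (α * tan (b n (g - 1)) + β * tan (b n (g - 1)) ^ 2)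
      ≤ (1 - y) / 2 * (α + β * ((1 - y) / (1 + y))) := by
    rw [sh_tan hn (by omega) (by omega)]
    have h1 : tan (b n g) / (tan (b n g) + tan (b n (g - 1))) ≤ 1 / (1 + tan (b n (g - 1))) := by
      rw [div_le_div_iff₀ (by linarith) (by linarith)]
      nlinarith
    have h2 : 0 ≤ α * tan (b n (g - 1)) + β * tan (b n (g - 1)) ^ 2 := by positivity
    have h3 := frac_mono hα hβ (x := 1) (by norm_num) hz0 hzZ
    have e : 1 / (1 + (1 - y) / (1 + y)) * (α * ((1 - y) / (1 + y)) + β * ((1 - y) / (1 + y)) ^ 2)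
        = (1 - y) / 2 * (α + β * ((1 - y) / (1 + y))) := by
      have h4 : (1 + y) ≠ 0 := by linarith
      have h5 : 1 + (1 - y) / (1 + y) = 2 / (1 + y) := by field_simp; ring
      rw [h5]
      field_simp
    rw [← e]
    exact le_trans (mul_le_mul_of_nonneg_right h1 h2) h3
  have hfr0 : 0 ≤ sh n g (g - 1) * (α * tan (b n (g - 1)) + β * tan (b n (g - 1)) ^ 2) := by
    apply mul_nonneg (sh_nonneg hn0 (by omega)) (by positivity)
  unfold cm
  rw [if_pos hg]
  have e3 : sh n g (g - 1) * WH n m (2 * g - 1) * (α * tan (b n (g - 1)) + β * tan (b n (g - 1)) ^ 2)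
      = sh n g (g - 1) * (α * tan (b n (g - 1)) + β * tan (b n (g - 1)) ^ 2) * WH n m (2 * g - 1) := by
    ring
  rw [e3]
  exact mul_le_mul hfr hWm hW0 (le_trans hfr0 hfr)

private lemma neg_phi_le (n g : ℕ) : max (-phi n g) 0 ≤ 1 / 5 := by
  have h1 := one_sub_phi_EE n g
  have h2 := EE_le (b n g)
  apply max_le <;> linarith

theorem load1_top {m n g : ℕ} (hm : 4 ≤ m) (hn : n = 2 * m + 1) (hg : 2 ≤ g) (hgm : 2 * g ≤ m)
    (hb : 147 / 100 < b n (2 * g + 1))
    (hW : ∀ h : ℕ, 2 ≤ h → h < m → b n h ≤ 147 / 100 →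
      WH n m h ≤ 177 / 100 / b n h * (1 + 4 / 5 / (h : ℝ) ^ 2) - 6 / 5)
    (hW2 : ∀ h : ℕ, h < m → 147 / 100 < b n h → WH n m h ≤ 1 / 900) :
    cm n m g * ((365 * tan (b n (g - 1)) + 1330 * tan (b n (g - 1)) ^ 2) / 1000)
      + c0 n m g * ((365 * tan (b n g) + 1330 * tan (b n g) ^ 2) / 1000)
      + cp n m g * ((365 * tan (b n (g + 1)) + 1330 * tan (b n (g + 1)) ^ 2) / 1000)
      + max (-phi n g) 0 ≤ 1 := by
  obtain ⟨hd0, hd1, hG4, hG⟩ := top_basic hm hn hg hgm hb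
  have hφ := neg_phi_le n g
  obtain ⟨hcp1, hcp2⟩ := top_cp hn hgm hb hW2
  have hc0 := top_c0 hm hn hg hgm hb hW hW2
  have hc00 := c0_nonneg' hn g (n := n) (m := m)
  obtain ⟨hx0, hx1⟩ := tan_le_top (b_nonneg' n g) (by linarith : b n g ≤ π / 4)
  set y : ℝ := 5 / 4 * b n 1 with hy
  have hy0 : 0 < y := by rw [hy]; linarith
  have hy1 : y ≤ 4364 / 10000 := by rw [hy]; linarith
  have hcm := top_cm hm hn hg hgm hb hW hW2 (α := 365 / 1000) (β := 1330 / 1000) (by norm_num)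
    (by norm_num) hy
  have hk : ∀ β : ℝ, (365 * tan β + 1330 * tan β ^ 2) / 1000
      = 365 / 1000 * tan β + 1330 / 1000 * tan β ^ 2 := by
    intro β; ring
  have hval : (1 - y) / 2 * (365 / 1000 + 1330 / 1000 * ((1 - y) / (1 + y))) *
      (8673 / 4500 / (147 / 100 - 8 / 5 * y) - 6 / 5) ≤ 38 / 100 := by
    have hden : 0 < 147 / 100 - 8 / 5 * y := by linarith
    have e : (1 - y) / 2 * (365 / 1000 + 1330 / 1000 * ((1 - y) / (1 + y))) *
      (8673 / 4500 / (147 / 100 - 8 / 5 * y) - 6 / 5)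
        = ((1 - y) * (365 / 1000 * (1 + y) + 1330 / 1000 * (1 - y)) *
          (8673 / 4500 - 6 / 5 * (147 / 100 - 8 / 5 * y))) /
          (2 * (1 + y) * (147 / 100 - 8 / 5 * y)) := by
      have h4 : (1 + y) ≠ 0 := by linarith
      have h5 : (147 / 100 - 8 / 5 * y) ≠ 0 := hden.ne'
      clear hcm
      generalize hD : (147 / 100 - 8 / 5 * y) = D at *
      field_simp
    rw [e, div_le_iff₀ (by positivity)]
    nlinarith [mul_nonneg hy0.le (sub_nonneg.2 hy1), sq_nonneg (y - 4364 / 10000),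
      mul_nonneg (sub_nonneg.2 hy1) (sq_nonneg (y - 4364 / 10000)),
      mul_nonneg hy0.le (sq_nonneg (y - 4364 / 10000))]
  rw [hk, hk, hk]
  have h1 : c0 n m g * (365 / 1000 * tan (b n g) + 1330 / 1000 * tan (b n g) ^ 2)
      ≤ 2270 / 10000 * (1695 / 1000) := by
    apply mul_le_mul hc0 _ (by positivity) (by norm_num)
    nlinarith
  have h2 : cp n m g * (365 / 1000 * tan (b n (g + 1)) + 1330 / 1000 * tan (b n (g + 1)) ^ 2)
      ≤ 1695 / 1000 * (1 / 900) := by
    have e : cp n m g * (365 / 1000 * tan (b n (g + 1)) + 1330 / 1000 * tan (b n (g + 1)) ^ 2)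
        = 365 / 1000 * (cp n m g * tan (b n (g + 1)))
          + 1330 / 1000 * (cp n m g * tan (b n (g + 1)) ^ 2) := by ring
    rw [e]
    linarith
  have h3 := le_trans hcm hval
  norm_num at h1 h2 h3 ⊢
  linarith

theorem load2_top {m n g : ℕ} (hm : 4 ≤ m) (hn : n = 2 * m + 1) (hg : 2 ≤ g) (hgm : 2 * g ≤ m)
    (hb : 147 / 100 < b n (2 * g + 1))
    (hW : ∀ h : ℕ, 2 ≤ h → h < m → b n h ≤ 147 / 100 →
      WH n m h ≤ 177 / 100 / b n h * (1 + 4 / 5 / (h : ℝ) ^ 2) - 6 / 5)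
    (hW2 : ∀ h : ℕ, h < m → 147 / 100 < b n h → WH n m h ≤ 1 / 900) :
    cm n m g * Real.tan (b n (g - 1)) ^ 2 + c0 n m g * Real.tan (b n g) ^ 2
      + cp n m g * Real.tan (b n (g + 1)) ^ 2 + max (-phi n g) 0 / Real.sin (b n g) ≤ 1 := by
  obtain ⟨hd0, hd1, hG4, hG⟩ := top_basic hm hn hg hgm hb
  have hφ := neg_phi_le n g
  obtain ⟨hcp1, hcp2⟩ := top_cp hn hgm hb hW2
  have hc0 := top_c0 hm hn hg hgm hb hW hW2
  obtain ⟨hx0, hx1⟩ := tan_le_top (b_nonneg' n g) (by linarith : b n g ≤ π / 4)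
  set y : ℝ := 5 / 4 * b n 1 with hy
  have hy0 : 0 < y := by rw [hy]; linarith
  have hy1 : y ≤ 4364 / 10000 := by rw [hy]; linarith
  have hcm := top_cm hm hn hg hgm hb hW hW2 (α := 0) (β := 1) le_rfl (by norm_num) hy
  have hval : (1 - y) / 2 * (0 + 1 * ((1 - y) / (1 + y))) *
      (8673 / 4500 / (147 / 100 - 8 / 5 * y) - 6 / 5) ≤ 1 / 5 := by
    have hden : 0 < 147 / 100 - 8 / 5 * y := by linarith
    have e : (1 - y) / 2 * (0 + 1 * ((1 - y) / (1 + y))) *
      (8673 / 4500 / (147 / 100 - 8 / 5 * y) - 6 / 5)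
        = ((1 - y) ^ 2 * (8673 / 4500 - 6 / 5 * (147 / 100 - 8 / 5 * y))) /
          (2 * (1 + y) * (147 / 100 - 8 / 5 * y)) := by
      have h4 : (1 + y) ≠ 0 := by linarith
      have h5 : (147 / 100 - 8 / 5 * y) ≠ 0 := hden.ne'
      clear hcm
      generalize hD : (147 / 100 - 8 / 5 * y) = D at *
      field_simp
      ring
    rw [e, div_le_iff₀ (by positivity)]
    nlinarith [mul_nonneg hy0.le (sub_nonneg.2 hy1), sq_nonneg (y - 4364 / 10000),
      mul_nonneg (sub_nonneg.2 hy1) (sq_nonneg (y - 4364 / 10000)),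
      mul_nonneg hy0.le (sq_nonneg (y - 4364 / 10000))]
  have h1 : c0 n m g * tan (b n g) ^ 2 ≤ 2270 / 10000 * 1 := by
    apply mul_le_mul hc0 _ (by positivity) (by norm_num)
    nlinarith
  have h3 := le_trans hcm hval
  have e4 : cm n m g * (0 * tan (b n (g - 1)) + 1 * tan (b n (g - 1)) ^ 2)
      = cm n m g * tan (b n (g - 1)) ^ 2 := by ring
  rw [e4] at h3
  -- the last term
  have hG56 : 56 / 100 < b n g := by linarith
  have hsin : 1 / 2 ≤ sin (b n g) := by
    have h5 : sin (π / 6) ≤ sin (b n g) := by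
      apply sin_le_sin_of_le_of_le_pi_div_two (by linarith [pi_pos]) (by linarith [pi_pos])
      have := pi_lt_d4
      norm_num at this
      linarith
    rw [sin_pi_div_six] at h5
    exact h5
  have h6 : max (-phi n g) 0 / sin (b n g) ≤ 2 / 5 := by
    rw [div_le_iff₀ (by linarith)]
    linarith
  linarith

end RP38
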