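import Mathlib

/-!
# One-variable polynomial inequalities (Bernstein form) for the loads (MP_d975fc_co, S11783)
-/

namespace RP38

theorem poly_g2 {x : ℝ} (h0 : 0 ≤ x) (h1 : x ≤ 1) :
    0 ≤ 27903036966 + (-125429696292) * x + (139057065089) * x ^ 2 + (-22204901014) * x ^ 3 + (97389231964) * x ^ 4 + (21154171000) * x ^ 5 + (-123469661875) * x ^ 6 + (-4105942750) * x ^ 7 + (40905000000) * x ^ 8 + (-4050000000) * x ^ 10 := by
  rcases le_total x (1/4) with h | h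
  · have ha : 0 ≤ x - (0) := by linarith
    have hb : 0 ≤ (1/4) - x := by linarith
    have e : 27903036966 + (-125429696292) * x + (139057065089) * x ^ 2 + (-22204901014) * x ^ 3 + (97389231964) * x ^ 4 + (21154171000) * x ^ 5 + (-123469661875) * x ^ 6 + (-4105942750) * x ^ 7 + (40905000000) * x ^ 8 + (-4050000000) * x ^ 10
        = (29258454889660416) * (x - (0)) ^ 0 * ((1/4) - x) ^ 10 + (259703906591834112) * (x - (0)) ^ 1 * ((1/4) - x) ^ 9 + (1029817933109460992) * (x - (0)) ^ 2 * ((1/4) - x) ^ 8 + (2399853609230696448) * (x - (0)) ^ 3 * ((1/4) - x) ^ 7 + (3635324670729469952) * (x - (0)) ^ 4 * ((1/4) - x) ^ 6 + (3735286548156440576) * (x - (0)) ^ 5 * ((1/4) - x) ^ 5 + (2632568780761230592) * (x - (0)) ^ 6 * ((1/4) - x) ^ 4 + (1254717157390204032) * (x - (0)) ^ 7 * ((1/4) - x) ^ 3 + (386468696756611968) * (x - (0)) ^ 8 * ((1/4) - x) ^ 2 + (69393917813060992) * (x - (0)) ^ 9 * ((1/4) - x) ^ 1 +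 (5516598885802240) * (x - (0)) ^ 10 * ((1/4) - x) ^ 0 := by ring
    rw [e]; positivity
  · clear h0; rename' h => h0
    rcases le_total x (1/2) with h | h
    · have ha : 0 ≤ x - (1/4) := by linarith
      have hb : 0 ≤ (1/2) - x := by linarith
      have e : 27903036966 + (-125429696292) * x + (139057065089) * x ^ 2 + (-22204901014) * x ^ 3 + (97389231964) * x ^ 4 + (21154171000) * x ^ 5 + (-123469661875) * x ^ 6 + (-4105942750) * x ^ 7 + (40905000000) * x ^ 8 + (-4050000000) * x ^ 10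
          = (5516598885802240) * (x - (1/4)) ^ 0 * ((1/2) - x) ^ 10 + (40938059902983808) * (x - (1/4)) ^ 1 * ((1/2) - x) ^ 9 + (130365975565917312) * (x - (1/4)) ^ 2 * ((1/2) - x) ^ 8 + (231992756004955008) * (x - (1/4)) ^ 3 * ((1/2) - x) ^ 7 + (254082099957454336) * (x - (1/4)) ^ 4 * ((1/2) - x) ^ 6 + (184988851141652992) * (x - (1/4)) ^ 5 * ((1/2) - x) ^ 5 + (107534735907360768) * (x - (1/4)) ^ 6 * ((1/2) - x) ^ 4 + (65839924385236992) * (x - (1/4)) ^ 7 * ((1/2) - x) ^ 3 + (38092608900947968) * (x - (1/4)) ^ 8 * ((1/2) - x) ^ 2 + (14054654035910656) * (x - (1/4)) ^ 9 * ((1/2) - x) ^ 1 + (2222222203256832) * (x - (1/4)) ^ 10 * ((1/2) - x) ^ 0 := by ring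
      rw [e]; positivity
    · clear h0; rename' h => h0
      have ha : 0 ≤ x - (1/2) := by linarith
      have hb : 0 ≤ (1) - x := by linarith
      have e : 27903036966 + (-125429696292) * x + (139057065089) * x ^ 2 + (-22204901014) * x ^ 3 + (97389231964) * x ^ 4 + (21154171000) * x ^ 5 + (-123469661875) * x ^ 6 + (-4105942750) * x ^ 7 + (40905000000) * x ^ 8 + (-4050000000) * x ^ 10
          = (2170138870368) * (x - (1/2)) ^ 0 * ((1) - x) ^ 10 + (37653669947152) * (x - (1/2)) ^ 1 * ((1) - x) ^ 9 + (286542099593392) * (x - (1/2)) ^ 2 * ((1) - x) ^ 8 + (1194096858096816) * (x - (1/2)) ^ 3 * ((1) - x) ^ 7 + (3032116426231920) * (x - (1/2)) ^ 4 * ((1) - x) ^ 6 + (4961810864129920) * (x - (1/2)) ^ 5 * ((1) - x) ^ 5 + (5352909652201792) * (x - (1/2)) ^ 6 * ((1) - x) ^ 4 + (3787124537329152) * (x - (1/2)) ^ 7 * ((1) - x) ^ 3 + (1690990416946176) * (x - (1/2)) ^ 8 * ((1) - x) ^ 2 + (432326716702720) *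 (x - (1/2)) ^ 9 * ((1) - x) ^ 1 + (48279862362112) * (x - (1/2)) ^ 10 * ((1) - x) ^ 0 := by ring
      rw [e]; positivity

theorem poly_g3 {x : ℝ} (h0 : 0 ≤ x) (h1 : x ≤ 1) :
    0 ≤ 1413972297117 + (-6116693360274) * x + (7055772800769) * x ^ 2 + (-1654806187818) * x ^ 3 + (4968726841987) * x ^ 4 + (834969805586) * x ^ 5 + (-4868161505641) * x ^ 6 + (-102380075798) * x ^ 7 + (1263740625000) * x ^ 8 + (-96468750000) * x ^ 10 := by
  rcases le_total x (1/2) with h | h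
  · have ha : 0 ≤ x - (0) := by linarith
    have hb : 0 ≤ (1/2) - x := by linarith
    have e : 1413972297117 + (-6116693360274) * x + (7055772800769) * x ^ 2 + (-1654806187818) * x ^ 3 + (4968726841987) * x ^ 4 + (834969805586) * x ^ 5 + (-4868161505641) * x ^ 6 + (-102380075798) * x ^ 7 + (1263740625000) * x ^ 8 + (-96468750000) * x ^ 10
        = (1447907632247808) * (x - (0)) ^ 0 * ((1/2) - x) ^ 10 + (11347329322017792) * (x - (0)) ^ 1 * ((1/2) - x) ^ 9 + (38776398284005632) * (x - (0)) ^ 2 * ((1/2) - x) ^ 8 + (75244431357100800) * (x - (0)) ^ 3 * ((1/2) - x) ^ 7 + (90404926342889920) * (x - (0)) ^ 4 * ((1/2) - x) ^ 6 + (68910751248522688) * (x - (0)) ^ 5 * ((1/2) - x) ^ 5 + (33312079935510256) * (x - (0)) ^ 6 * ((1/2) - x) ^ 4 + (10734974300035984) * (x - (0)) ^ 7 * ((1/2) - x) ^ 3 + (3113034279872752) * (x - (0)) ^ 8 * ((1/2) - x) ^ 2 + (998546413062064) * (x - (0)) ^ 9 * ((1/2) - x) ^ 1 + (181589697462960)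 * (x - (0)) ^ 10 * ((1/2) - x) ^ 0 := by ring
    rw [e]; positivity
  · clear h0; rename' h => h0
    have ha : 0 ≤ x - (1/2) := by linarith
    have hb : 0 ≤ (1) - x := by linarith
    have e : 1413972297117 + (-6116693360274) * x + (7055772800769) * x ^ 2 + (-1654806187818) * x ^ 3 + (4968726841987) * x ^ 4 + (834969805586) * x ^ 5 + (-4868161505641) * x ^ 6 + (-102380075798) * x ^ 7 + (1263740625000) * x ^ 8 + (-96468750000) * x ^ 10
        = (181589697462960) * (x - (1/2)) ^ 0 * ((1) - x) ^ 10 + (2633247536197136) * (x - (1/2)) ^ 1 * ((1) - x) ^ 9 + (17825344388088400) * (x - (1/2)) ^ 2 * ((1) - x) ^ 8 + (69609000261432432) * (x - (1/2)) ^ 3 * ((1) - x) ^ 7 + (170800472978593296) * (x - (1/2)) ^ 4 * ((1) - x) ^ 6 + (275005475765759040) * (x - (1/2)) ^ 5 * ((1) - x) ^ 5 + (295254195871625472) * (x - (1/2)) ^ 6 * ((1) - x) ^ 4 + (209501777047982080) * (x - (1/2)) ^ 7 * ((1) - x) ^ 3 + (94333270302503936)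 * (x - (1/2)) ^ 8 * ((1) - x) ^ 2 + (24408909726363648) * (x - (1/2)) ^ 9 * ((1) - x) ^ 1 + (2763440630710272) * (x - (1/2)) ^ 10 * ((1) - x) ^ 0 := by ring
    rw [e]; positivity

theorem poly_g4 {x : ℝ} (h0 : 0 ≤ x) (h1 : x ≤ 1) :
    0 ≤ 11790967125 + (-50268530750) * x + (62679169875) * x ^ 2 + (-35736038394) * x ^ 3 + (51853882500) * x ^ 4 + (-6164352096) * x ^ 5 + (-16800000000) * x ^ 6 + (-1027392016) * x ^ 7 := by
  rcases le_total x (1/2) with h | h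
  · have ha : 0 ≤ x - (0) := by linarith
    have hb : 0 ≤ (1/2) - x := by linarith
    have e : 11790967125 + (-50268530750) * x + (62679169875) * x ^ 2 + (-35736038394) * x ^ 3 + (51853882500) * x ^ 4 + (-6164352096) * x ^ 5 + (-16800000000) * x ^ 6 + (-1027392016) * x ^ 7
        = (1509243792000) * (x - (0)) ^ 0 * ((1/2) - x) ^ 7 + (7347520576000) * (x - (0)) ^ 1 * ((1/2) - x) ^ 6 + (14396737260000) * (x - (0)) ^ 2 * ((1/2) - x) ^ 5 + (14022633765696) * (x - (0)) ^ 3 * ((1/2) - x) ^ 4 + (6664872322784) * (x - (0)) ^ 4 * ((1/2) - x) ^ 3 + (1282840557792) * (x - (0)) ^ 5 * ((1/2) - x) ^ 2 + (164729822016) * (x - (0)) ^ 6 * ((1/2) - x) ^ 1 + (81560905296) * (x - (0)) ^ 7 * ((1/2) - x) ^ 0 := by ring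
    rw [e]; positivity
  · clear h0; rename' h => h0
    have ha : 0 ≤ x - (1/2) := by linarith
    have hb : 0 ≤ (1) - x := by linarith
    have e : 11790967125 + (-50268530750) * x + (62679169875) * x ^ 2 + (-35736038394) * x ^ 3 + (51853882500) * x ^ 4 + (-6164352096) * x ^ 5 + (-16800000000) * x ^ 6 + (-1027392016) * x ^ 7
        = (81560905296) * (x - (1/2)) ^ 0 * ((1) - x) ^ 7 + (977122852128) * (x - (1/2)) ^ 1 * ((1) - x) ^ 6 + (6157198738464) * (x - (1/2)) ^ 2 * ((1) - x) ^ 5 + (19116797417056) * (x - (1/2)) ^ 3 * ((1) - x) ^ 4 + (31334612938304) * (x - (1/2)) ^ 4 * ((1) - x) ^ 3 + (27683145285792) * (x - (1/2)) ^ 5 * ((1) - x) ^ 2 + (12294666764160) * (x - (1/2)) ^ 6 * ((1) - x) ^ 1 + (2089946399232) * (x - (1/2)) ^ 7 * ((1) - x) ^ 0 := by ring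
    rw [e]; positivity

theorem poly_q2 {x : ℝ} (h0 : 0 ≤ x) (h1 : x ≤ 1) :
    0 ≤ 405000000 + (-1170850362) * x + (720900000) * x ^ 2 + (797059921) * x ^ 3 + (-356400000) * x ^ 4 + (-155944000) * x ^ 5 + (56700000) * x ^ 6 + (-153945875) * x ^ 7 + (82012500) * x ^ 9 + (-10125000) * x ^ 11 := by
  have ha : 0 ≤ x - (0) := by linarith
  have hb : 0 ≤ (1) - x := by linarith
  have e : 405000000 + (-1170850362) * x + (720900000) * x ^ 2 + (797059921) * x ^ 3 + (-356400000) * x ^ 4 + (-155944000) * x ^ 5 + (56700000) * x ^ 6 + (-153945875) * x ^ 7 + (82012500) * x ^ 9 + (-10125000) * x ^ 11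
      = (405000000) * (x - (0)) ^ 0 * ((1) - x) ^ 11 + (3284149638) * (x - (0)) ^ 1 * ((1) - x) ^ 10 + (11287396380) * (x - (0)) ^ 2 * ((1) - x) ^ 9 + (21421893631) * (x - (0)) ^ 3 * ((1) - x) ^ 8 + (25120435928) * (x - (0)) ^ 4 * ((1) - x) ^ 7 + (21453957768) * (x - (0)) ^ 5 * ((1) - x) ^ 6 + (19161100352) * (x - (0)) ^ 6 * ((1) - x) ^ 5 + (19715412575) * (x - (0)) ^ 7 * ((1) - x) ^ 4 + (15872248636) * (x - (0)) ^ 8 * ((1) - x) ^ 3 + (7758588748) * (x - (0)) ^ 9 * ((1) - x) ^ 2 + (2012353248) * (x - (0)) ^ 10 * ((1) - x) ^ 1 + (214407184) * (x - (0)) ^ 11 * ((1) - x) ^ 0 := by ring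
  rw [e]; positivity

theorem poly_q3 {x : ℝ} (h0 : 0 ≤ x) (h1 : x ≤ 1) :
    0 ≤ 40516875000 + (-116458639128) * x + (79335900000) * x ^ 2 + (60744481929) * x ^ 3 + (-27397125000) * x ^ 4 + (-4962671833) * x ^ 5 + (2932650000) * x ^ 6 + (-14265753131) * x ^ 7 + (5354015625) * x ^ 9 + (-482343750) * x ^ 11 := by
  have ha : 0 ≤ x - (0) := by linarith
  have hb : 0 ≤ (1) - x := by linarith
  have e : 40516875000 + (-116458639128) * x + (79335900000) * x ^ 2 + (60744481929) * x ^ 3 + (-27397125000) * x ^ 4 + (-4962671833) * x ^ 5 + (2932650000) * x ^ 6 + (-14265753131) * x ^ 7 + (5354015625) * x ^ 9 + (-482343750) * x ^ 11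
      = (40516875000) * (x - (0)) ^ 0 * ((1) - x) ^ 11 + (329226985872) * (x - (0)) ^ 1 * ((1) - x) ^ 10 + (1143177633720) * (x - (0)) ^ 2 * ((1) - x) ^ 9 + (2219413196169) * (x - (0)) ^ 3 * ((1) - x) ^ 8 + (2710183185072) * (x - (0)) ^ 4 * ((1) - x) ^ 7 + (2430800580299) * (x - (0)) ^ 5 * ((1) - x) ^ 6 + (2167050571770) * (x - (0)) ^ 6 * ((1) - x) ^ 5 + (2129749712524) * (x - (0)) ^ 7 * ((1) - x) ^ 4 + (1690264943480) * (x - (0)) ^ 8 * ((1) - x) ^ 3 + (844033552596) * (x - (0)) ^ 9 * ((1) - x) ^ 2 + (227830551880) * (x - (0)) ^ 10 * ((1) - x) ^ 1 + (25317389712) * (x - (0)) ^ 11 * ((1) - x) ^ 0 := by ring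
  rw [e]; positivity

theorem poly_q4 {x : ℝ} (h0 : 0 ≤ x) (h1 : x ≤ 1) :
    0 ≤ 24000000 + (-68839125) * x + (57600000) * x ^ 2 + (4927713) * x ^ 3 + (3289392) * x ^ 5 + (-6551768) * x ^ 7 := by
  have ha : 0 ≤ x - (0) := by linarith
  have hb : 0 ≤ (1) - x := by linarith
  have e : 24000000 + (-68839125) * x + (57600000) * x ^ 2 + (4927713) * x ^ 3 + (3289392) * x ^ 5 + (-6551768) * x ^ 7
      = (24000000) * (x - (0)) ^ 0 * ((1) - x) ^ 7 + (99160875) * (x - (0)) ^ 1 * ((1) - x) ^ 6 + (148565250) * (x - (0)) ^ 2 * ((1) - x) ^ 5 + (100340838) * (x - (0)) ^ 3 * ((1) - x) ^ 4 + (58928352) * (x - (0)) ^ 4 * ((1) - x) ^ 3 + (80268795) * (x - (0)) ^ 5 * ((1) - x) ^ 2 + (69254886) * (x - (0)) ^ 6 * ((1) - x) ^ 1 + (14426212) * (x - (0)) ^ 7 * ((1) - x) ^ 0 := by ring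
  rw [e]; positivity

theorem poly_phi {x : ℝ} (h0 : 0 ≤ x) (h1 : x ≤ 1) :
    0 ≤ 9 + (-119) * x + (484) * x ^ 2 + (-194) * x ^ 3 + (-211) * x ^ 4 + (45) * x ^ 5 + (50) * x ^ 6 := by
  rcases le_total x (1/4) with h | h
  · have ha : 0 ≤ x - (0) := by linarith
    have hb : 0 ≤ (1/4) - x := by linarith
    have e : 9 + (-119) * x + (484) * x ^ 2 + (-194) * x ^ 3 + (-211) * x ^ 4 + (45) * x ^ 5 + (50) * x ^ 6
        = (36864) * (x - (0)) ^ 0 * ((1/4) - x) ^ 6 + (99328) * (x - (0)) ^ 1 * ((1/4) - x) ^ 5 + (67584) * (x - (0)) ^ 2 * ((1/4) - x) ^ 4 + (1920) * (x - (0)) ^ 3 * ((1/4) - x) ^ 3 + (37200) * (x - (0)) ^ 4 * ((1/4) - x) ^ 2 + (63700) * (x - (0)) ^ 5 * ((1/4) - x) ^ 1 + (23350) * (x - (0)) ^ 6 * ((1/4) - x) ^ 0 := by ring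
    rw [e]; positivity
  · clear h0; rename' h => h0
    rcases le_total x (1/2) with h | h
    · have ha : 0 ≤ x - (1/4) := by linarith
      have hb : 0 ≤ (1/2) - x := by linarith
      have e : 9 + (-119) * x + (484) * x ^ 2 + (-194) * x ^ 3 + (-211) * x ^ 4 + (45) * x ^ 5 + (50) * x ^ 6
          = (23350) * (x - (1/4)) ^ 0 * ((1/2) - x) ^ 6 + (216500) * (x - (1/4)) ^ 1 * ((1/2) - x) ^ 5 + (801200) * (x - (1/4)) ^ 2 * ((1/2) - x) ^ 4 + (1483680) * (x - (1/4)) ^ 3 * ((1/2) - x) ^ 3 + (1456864) * (x - (1/4)) ^ 4 * ((1/2) - x) ^ 2 + (725568) * (x - (1/4)) ^ 5 * ((1/2) - x) ^ 1 + (144384) * (x - (1/4)) ^ 6 * ((1/2) - x) ^ 0 := by ring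
      rw [e]; positivity
    · clear h0; rename' h => h0
      have ha : 0 ≤ x - (1/2) := by linarith
      have hb : 0 ≤ (1) - x := by linarith
      have e : 9 + (-119) * x + (484) * x ^ 2 + (-194) * x ^ 3 + (-211) * x ^ 4 + (45) * x ^ 5 + (50) * x ^ 6
          = (2256) * (x - (1/2)) ^ 0 * ((1) - x) ^ 6 + (17934) * (x - (1/2)) ^ 1 * ((1) - x) ^ 5 + (55504) * (x - (1/2)) ^ 2 * ((1) - x) ^ 4 + (84768) * (x - (1/2)) ^ 3 * ((1) - x) ^ 3 + (67136) * (x - (1/2)) ^ 4 * ((1) - x) ^ 2 + (26240) * (x - (1/2)) ^ 5 * ((1) - x) ^ 1 + (4096) * (x - (1/2)) ^ 6 * ((1) - x) ^ 0 := by ring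
      rw [e]; positivity

end RP38
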