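import Pool.Agent.RP39.Small
import Pool.Agent.RP39.Poly

/-!
# The load function of the main region is at most one (MP_d975fc_co, S11783)
-/

namespace RP38

/-- upper bound of the three arrivals: kernel `α z + β z²`, `x = tan b_g`, `s = 1/g` -/
noncomputable def FF (α β x s : ℝ) : ℝ :=
  177 / 100 * (1 + x ^ 2 / 3) * (1 / 2 * (1 + s ^ 2 / 5) * (α + β * x)
        + (1 + 4 / 5 * s ^ 2 / (2 + s) ^ 2) / (2 + s)
          * (α * (1 + s) / (2 + s - s * x ^ 2)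
            + β * x * (1 + s) ^ 2 / ((1 - s * x ^ 2) * (2 + s - s * x ^ 2)))
        + (1 + 4 / 5 * s ^ 2 / (2 - s) ^ 2) / (2 - s)
          * (α * (1 - s) / (2 - s) + β * x * (1 - s) ^ 2 / (2 - s)))
      - 6 / 5 * x * (α + β * x
        + (α * (1 + s) / (2 + s - s * x ^ 2)
            + β * x * (1 + s) ^ 2 / ((1 - s * x ^ 2) * (2 + s - s * x ^ 2)))
        + (α * (1 - s) / (2 - s) + β * x * (1 - s) ^ 2 / (2 - s)))

theorem FF_half {x : ℝ} (h0 : 0 ≤ x) (h1 : x ≤ 1) :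
    FF (73 / 200) (133 / 100) x (1 / 2) + x ^ 2 * (109 / 100 - 155 / 100 * x ^ 2 + x ^ 4 / 2) ≤ 1 := by
  have hp := poly_g2 h0 h1
  have hx : x ^ 2 ≤ 1 := by nlinarith
  have k1 : 0 < 2 - x ^ 2 := by linarith
  have k2 : 0 < 5 - x ^ 2 := by linarith
  have e1 : 1 - 1 / 2 * x ^ 2 = (2 - x ^ 2) / 2 := by ring
  have e2 : 2 + 1 / 2 - 1 / 2 * x ^ 2 = (5 - x ^ 2) / 2 := by ring
  have e : 1 - (FF (73 / 200) (133 / 100) x (1 / 2) + x ^ 2 * (109 / 100 - 155 / 100 * x ^ 2 + x ^ 4 / 2))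
      = (27903036966 + (-125429696292) * x + (139057065089) * x ^ 2 + (-22204901014) * x ^ 3 + (97389231964) * x ^ 4 + (21154171000) * x ^ 5 + (-123469661875) * x ^ 6 + (-4105942750) * x ^ 7 + (40905000000) * x ^ 8 + (-4050000000) * x ^ 10) / (8100000000 * ((2 - x ^ 2) * (5 - x ^ 2))) := by
    unfold FF
    rw [e1, e2]
    have n1 := k1.ne'
    have n2 := k2.ne'
    field_simp
    ring
  have h3 : 0 ≤ (27903036966 + (-125429696292) * x + (139057065089) * x ^ 2 + (-22204901014) * x ^ 3 + (97389231964) * x ^ 4 + (21154171000) * x ^ 5 + (-123469661875) * x ^ 6 + (-4105942750) * x ^ 7 + (40905000000) * x ^ 8 + (-4050000000) * x ^ 10) / (8100000000 * ((2 - x ^ 2) * (5 - x ^ 2))) :=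
    div_nonneg hp (by positivity)
  linarith

theorem FF_third {x : ℝ} (h0 : 0 ≤ x) (h1 : x ≤ 1) :
    FF (73 / 200) (133 / 100) x (1 / 3) + x ^ 2 * (109 / 100 - 155 / 100 * x ^ 2 + x ^ 4 / 2) ≤ 1 := by
  have hp := poly_g3 h0 h1
  have hx : x ^ 2 ≤ 1 := by nlinarith
  have k1 : 0 < 3 - x ^ 2 := by linarith
  have k2 : 0 < 7 - x ^ 2 := by linarith
  have e1 : 1 - 1 / 3 * x ^ 2 = (3 - x ^ 2) / 3 := by ring
  have e2 : 2 + 1 / 3 - 1 / 3 * x ^ 2 = (7 - x ^ 2) / 3 := by ring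
  have e : 1 - (FF (73 / 200) (133 / 100) x (1 / 3) + x ^ 2 * (109 / 100 - 155 / 100 * x ^ 2 + x ^ 4 / 2))
      = (1413972297117 + (-6116693360274) * x + (7055772800769) * x ^ 2 + (-1654806187818) * x ^ 3 + (4968726841987) * x ^ 4 + (834969805586) * x ^ 5 + (-4868161505641) * x ^ 6 + (-102380075798) * x ^ 7 + (1263740625000) * x ^ 8 + (-96468750000) * x ^ 10) / (192937500000 * ((3 - x ^ 2) * (7 - x ^ 2))) := by
    unfold FF
    rw [e1, e2]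
    have n1 := k1.ne'
    have n2 := k2.ne'
    field_simp
    ring
  have h3 : 0 ≤ (1413972297117 + (-6116693360274) * x + (7055772800769) * x ^ 2 + (-1654806187818) * x ^ 3 + (4968726841987) * x ^ 4 + (834969805586) * x ^ 5 + (-4868161505641) * x ^ 6 + (-102380075798) * x ^ 7 + (1263740625000) * x ^ 8 + (-96468750000) * x ^ 10) / (192937500000 * ((3 - x ^ 2) * (7 - x ^ 2))) :=
    div_nonneg hp (by positivity)
  linarith

theorem FF2_half {x : ℝ} (h0 : 0 ≤ x) (h1 : x ≤ 1) :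
    FF (0) (1) x (1 / 2) + x * (109 / 100 - 155 / 100 * x ^ 2 + x ^ 4 / 2) * (1 + x ^ 2 / 2) ≤ 1 := by
  have hp := poly_q2 h0 h1
  have hx : x ^ 2 ≤ 1 := by nlinarith
  have k1 : 0 < 2 - x ^ 2 := by linarith
  have k2 : 0 < 5 - x ^ 2 := by linarith
  have e1 : 1 - 1 / 2 * x ^ 2 = (2 - x ^ 2) / 2 := by ring
  have e2 : 2 + 1 / 2 - 1 / 2 * x ^ 2 = (5 - x ^ 2) / 2 := by ring
  have e : 1 - (FF (0) (1) x (1 / 2) + x * (109 / 100 - 155 / 100 * x ^ 2 + x ^ 4 / 2) * (1 + x ^ 2 / 2))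
      = (405000000 + (-1170850362) * x + (720900000) * x ^ 2 + (797059921) * x ^ 3 + (-356400000) * x ^ 4 + (-155944000) * x ^ 5 + (56700000) * x ^ 6 + (-153945875) * x ^ 7 + (82012500) * x ^ 9 + (-10125000) * x ^ 11) / (40500000 * ((2 - x ^ 2) * (5 - x ^ 2))) := by
    unfold FF
    rw [e1, e2]
    have n1 := k1.ne'
    have n2 := k2.ne'
    field_simp
    ring
  have h3 : 0 ≤ (405000000 + (-1170850362) * x + (720900000) * x ^ 2 + (797059921) * x ^ 3 + (-356400000) * x ^ 4 + (-155944000) * x ^ 5 + (56700000) * x ^ 6 + (-153945875) * x ^ 7 + (82012500) * x ^ 9 + (-10125000) * x ^ 11) / (40500000 * ((2 - x ^ 2) * (5 - x ^ 2))) :=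
    div_nonneg hp (by positivity)
  linarith

theorem FF2_third {x : ℝ} (h0 : 0 ≤ x) (h1 : x ≤ 1) :
    FF (0) (1) x (1 / 3) + x * (109 / 100 - 155 / 100 * x ^ 2 + x ^ 4 / 2) * (1 + x ^ 2 / 2) ≤ 1 := by
  have hp := poly_q3 h0 h1
  have hx : x ^ 2 ≤ 1 := by nlinarith
  have k1 : 0 < 3 - x ^ 2 := by linarith
  have k2 : 0 < 7 - x ^ 2 := by linarith
  have e1 : 1 - 1 / 3 * x ^ 2 = (3 - x ^ 2) / 3 := by ring
  have e2 : 2 + 1 / 3 - 1 / 3 * x ^ 2 = (7 - x ^ 2) / 3 := by ring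
  have e : 1 - (FF (0) (1) x (1 / 3) + x * (109 / 100 - 155 / 100 * x ^ 2 + x ^ 4 / 2) * (1 + x ^ 2 / 2))
      = (40516875000 + (-116458639128) * x + (79335900000) * x ^ 2 + (60744481929) * x ^ 3 + (-27397125000) * x ^ 4 + (-4962671833) * x ^ 5 + (2932650000) * x ^ 6 + (-14265753131) * x ^ 7 + (5354015625) * x ^ 9 + (-482343750) * x ^ 11) / (1929375000 * ((3 - x ^ 2) * (7 - x ^ 2))) := by
    unfold FF
    rw [e1, e2]
    have n1 := k1.ne'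
    have n2 := k2.ne'
    field_simp
    ring
  have h3 : 0 ≤ (40516875000 + (-116458639128) * x + (79335900000) * x ^ 2 + (60744481929) * x ^ 3 + (-27397125000) * x ^ 4 + (-4962671833) * x ^ 5 + (2932650000) * x ^ 6 + (-14265753131) * x ^ 7 + (5354015625) * x ^ 9 + (-482343750) * x ^ 11) / (1929375000 * ((3 - x ^ 2) * (7 - x ^ 2))) :=
    div_nonneg hp (by positivity)
  linarith

theorem FF_small {α β x s : ℝ} (hα : 0 ≤ α) (hβ : 0 ≤ β) (h0 : 0 ≤ x) (h1 : x ≤ 1) (hs0 : 0 ≤ s)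
    (hs1 : s ≤ 1 / 4) :
    FF α β x s ≤ 177 / 100 * (1 + x ^ 2 / 3) * (α * (1 + 3 / 640 + x ^ 2 / 32)
      + β * x * (1 + 3 / 640 + 1169 / 10000 * x ^ 2 * (1 + x ^ 2 / 3)))
      - 6 / 5 * x * (α * (2 - 1 / 63) + 2 * β * x) := by
  have hx0 : 0 ≤ x ^ 2 := by positivity
  have hx : x ^ 2 ≤ 1 := by nlinarith
  have a1 := Ha_le hs0 hs1 hx0 hx
  have a2 := Hb_le hs0 hs1 hx0 hx
  have a3 := Ja_ge hs0 hs1 hx0 hx
  have a4 := Jb_ge hs0 hs1 hx0 hx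
  have e : FF α β x s = 177 / 100 * (1 + x ^ 2 / 3) * (α * (1 / 2 * (1 + s ^ 2 / 5)
        + (1 + 4 / 5 * s ^ 2 / (2 + s) ^ 2) / (2 + s) * ((1 + s) / (2 + s - s * x ^ 2))
        + (1 + 4 / 5 * s ^ 2 / (2 - s) ^ 2) / (2 - s) * ((1 - s) / (2 - s)))
      + β * x * (1 / 2 * (1 + s ^ 2 / 5)
        + (1 + 4 / 5 * s ^ 2 / (2 + s) ^ 2) / (2 + s)
          * ((1 + s) ^ 2 / ((1 - s * x ^ 2) * (2 + s - s * x ^ 2)))
        + (1 + 4 / 5 * s ^ 2 / (2 - s) ^ 2) / (2 - s) * ((1 - s) ^ 2 / (2 - s))))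
      - 6 / 5 * x * (α * (1 + (1 + s) / (2 + s - s * x ^ 2) + (1 - s) / (2 - s))
        + β * x * (1 + (1 + s) ^ 2 / ((1 - s * x ^ 2) * (2 + s - s * x ^ 2)) + (1 - s) ^ 2 / (2 - s))) := by
    unfold FF
    ring
  rw [e]
  have b1 := mul_le_mul_of_nonneg_left a1 hα
  have b2 := mul_le_mul_of_nonneg_left a2 (mul_nonneg hβ h0)
  have b3 := mul_le_mul_of_nonneg_left a3 hα
  have b4 := mul_le_mul_of_nonneg_left a4 (mul_nonneg hβ h0)
  have c1 := mul_le_mul_of_nonneg_left (add_le_add b1 b2) (show 0 ≤ 177 / 100 * (1 + x ^ 2 / 3) by positivity)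
  have c2 := mul_le_mul_of_nonneg_left (add_le_add b3 b4) (show 0 ≤ 6 / 5 * x by positivity)
  have e3 : α * (2 - 1 / 63) + β * x * 2 = α * (2 - 1 / 63) + 2 * β * x := by ring
  rw [e3] at c2
  linarith

theorem FF_quarter {x s : ℝ} (h0 : 0 ≤ x) (h1 : x ≤ 1) (hs0 : 0 ≤ s) (hs1 : s ≤ 1 / 4) :
    FF (73 / 200) (133 / 100) x s + x ^ 2 * (109 / 100 - 155 / 100 * x ^ 2 + x ^ 4 / 2) ≤ 1 := by
  have hp := poly_g4 h0 h1
  have h := FF_small (α := 73 / 200) (β := 133 / 100) (by norm_num) (by norm_num) h0 h1 hs0 hs1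
  nlinarith

theorem FF2_quarter {x s : ℝ} (h0 : 0 ≤ x) (h1 : x ≤ 1) (hs0 : 0 ≤ s) (hs1 : s ≤ 1 / 4) :
    FF (0) (1) x s + x * (109 / 100 - 155 / 100 * x ^ 2 + x ^ 4 / 2) * (1 + x ^ 2 / 2) ≤ 1 := by
  have hp := poly_q4 h0 h1
  have h := FF_small (α := 0) (β := 1) (by norm_num) (by norm_num) h0 h1 hs0 hs1
  nlinarith

end RP38
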