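import Pool.Agent.RP39.Region1
import Pool.Agent.RP39.FF

/-!
# The two loads in the main region and for the classes without arrivals (MP_d975fc_co, S11783)
-/

namespace RP38

open Real

theorem cos_b_pos {m n g : ℕ} (hn : n = 2 * m + 1) (hg : g ≤ m) : 0 < cos (b n g) := by
  apply cos_pos_of_mem_Ioo
  constructor
  · have : 0 ≤ b n g := by unfold b; positivity
    linarith [pi_pos]
  · exact b_lt_half hn hg

/-- `max (-φ) 0` is at most a polynomial in the tangent, `tan ≤ 1` -/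
theorem max_phi_le {m n g : ℕ} (hn : n = 2 * m + 1) (hg : g ≤ m) {x : ℝ} (hx : x = tan (b n g))
    (hx0 : 0 ≤ x) (hx1 : x ≤ 1) :
    max (-phi n g) 0 ≤ x ^ 2 * (109 / 100 - 155 / 100 * x ^ 2 + x ^ 4 / 2) := by
  have hu0 : 0 ≤ x ^ 2 := by positivity
  have hu1 : x ^ 2 ≤ 1 := by nlinarith
  have hp := poly_phi hu0 hu1
  have hr : 0 ≤ 109 / 100 - 155 / 100 * x ^ 2 + x ^ 4 / 2 := by nlinarith
  apply max_le
  · rw [neg_phi_tan (cos_b_pos hn hg).ne', ← hx]
    have hd : (0 : ℝ) < (1 + x ^ 2) ^ 4 := by positivity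
    rw [div_le_iff₀ hd]
    have : x ^ 2 * (109 / 100 - 155 / 100 * x ^ 2 + x ^ 4 / 2) * (1 + x ^ 2) ^ 4
        - x ^ 2 * (1 - x ^ 2) * (1 + 5 * x ^ 2 + x ^ 4)
        = x ^ 2 * (((109 / 100 - 155 / 100 * x ^ 2 + (x ^ 2) ^ 2 / 2) * (1 + x ^ 2) ^ 4
          - (1 - x ^ 2) * (1 + 5 * x ^ 2 + (x ^ 2) ^ 2))) := by ring
    have h2 : 0 ≤ (109 / 100 - 155 / 100 * x ^ 2 + (x ^ 2) ^ 2 / 2) * (1 + x ^ 2) ^ 4
          - (1 - x ^ 2) * (1 + 5 * x ^ 2 + (x ^ 2) ^ 2) := by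
      linarith
    have h3 := mul_nonneg hu0 h2
    linarith
  · positivity

/-- the same divided by `sin b_g` -/
theorem max_phi_div_le {m n g : ℕ} (hn : n = 2 * m + 1) (hg1 : 1 ≤ g) (hg : g ≤ m) {x : ℝ}
    (hx : x = tan (b n g)) (hx0 : 0 ≤ x) (hx1 : x ≤ 1) :
    max (-phi n g) 0 / sin (b n g)
      ≤ x * (109 / 100 - 155 / 100 * x ^ 2 + x ^ 4 / 2) * (1 + x ^ 2 / 2) := by
  have h1 := max_phi_le hn hg hx hx0 hx1
  have hc := cos_b_pos (m := m) hn hg
  have hb0 : 0 < b n g := by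
    unfold b
    have : (0 : ℝ) < n := by rw [hn]; positivity
    have : (0 : ℝ) < g := by exact_mod_cast hg1
    positivity
  have hs : 0 < sin (b n g) :=
    sin_pos_of_pos_of_lt_pi hb0 (by linarith [b_lt_half (m := m) hn hg, pi_pos])
  have hr : 0 ≤ 109 / 100 - 155 / 100 * x ^ 2 + x ^ 4 / 2 := by nlinarith [sq_nonneg (x ^ 2 - 1)]
  have e1 : sin (b n g) = x * cos (b n g) := by
    rw [hx, tan_eq_sin_div_cos]; field_simp
  have e2 : cos (b n g) ^ 2 * (1 + x ^ 2) = 1 := by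
    have := sin_sq_add_cos_sq (b n g)
    rw [e1] at this
    linarith
  have e3 : 1 ≤ cos (b n g) * (1 + x ^ 2 / 2) := by
    have h4 : 1 ≤ (cos (b n g) * (1 + x ^ 2 / 2)) ^ 2 := by
      have : (cos (b n g) * (1 + x ^ 2 / 2)) ^ 2
          = cos (b n g) ^ 2 * (1 + x ^ 2) + cos (b n g) ^ 2 * (x ^ 2 / 2) ^ 2 := by ring
      rw [this, e2]
      have : 0 ≤ cos (b n g) ^ 2 * (x ^ 2 / 2) ^ 2 := by positivity
      linarith
    have h5 : 0 ≤ cos (b n g) * (1 + x ^ 2 / 2) := by positivity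
    nlinarith
  rw [div_le_iff₀ hs]
  refine h1.trans ?_
  have e4 : x * (109 / 100 - 155 / 100 * x ^ 2 + x ^ 4 / 2) * (1 + x ^ 2 / 2) * sin (b n g)
      = x ^ 2 * (109 / 100 - 155 / 100 * x ^ 2 + x ^ 4 / 2) * (cos (b n g) * (1 + x ^ 2 / 2)) := by
    rw [e1]; ring
  rw [e4]
  have h6 : 0 ≤ x ^ 2 * (109 / 100 - 155 / 100 * x ^ 2 + x ^ 4 / 2) := by positivity
  nlinarith

theorem tan_le_one_of {n g : ℕ} (hn : 0 < n) (h : 4 * g ≤ n) : tan (b n g) ≤ 1 := by
  rw [← tan_pi_div_four]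
  have hn0 : (0 : ℝ) < n := by exact_mod_cast hn
  have h1 : b n g ≤ π / 4 := by
    unfold b
    rw [div_le_div_iff₀ hn0 (by norm_num)]
    have : 4 * (g : ℝ) ≤ n := by exact_mod_cast h
    nlinarith [pi_pos]
  have h0 : 0 ≤ b n g := by unfold b; positivity
  apply strictMonoOn_tan.monotoneOn _ _ h1
  · exact ⟨by linarith [pi_pos], by linarith [pi_pos]⟩
  · exact ⟨by linarith [pi_pos], by linarith [pi_pos]⟩

theorem phi_nonneg_top {m n g : ℕ} (hn : n = 2 * m + 1) (hgm : g < m) (h : m < 2 * g) :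
    max (-phi n g) 0 = 0 := by
  apply max_eq_right
  rw [neg_phi_tan (cos_b_pos hn hgm.le).ne']
  have hn0 : (0 : ℝ) < n := by rw [hn]; positivity
  have h1 : π / 4 ≤ b n g := by
    unfold b
    rw [div_le_div_iff₀ (by norm_num) hn0]
    have : (n : ℝ) ≤ 4 * g := by
      have : n ≤ 4 * g := by omega
      exact_mod_cast this
    nlinarith [pi_pos]
  have h2 : 1 ≤ tan (b n g) := by
    rw [← tan_pi_div_four]
    apply strictMonoOn_tan.monotoneOn _ _ h1
    · exact ⟨by linarith [pi_pos], by linarith [pi_pos]⟩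
    · exact ⟨by linarith [pi_pos], b_lt_half hn hgm.le⟩
  have h3 : 1 ≤ tan (b n g) ^ 2 := by nlinarith
  apply div_nonpos_of_nonpos_of_nonneg _ (by positivity)
  have h4 : 0 ≤ tan (b n g) ^ 2 * (1 + 5 * tan (b n g) ^ 2 + tan (b n g) ^ 4) := by positivity
  nlinarith

/-- no arrivals -/
theorem load_none {m n g : ℕ} (h : m < 2 * g) :
    cm n m g = 0 ∧ c0 n m g = 0 ∧ cp n m g = 0 := by
  refine ⟨?_, ?_, ?_⟩
  · unfold cm
    split_ifs
    · rw [WH_top (by omega), mul_zero]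
    · rfl
  · unfold c0
    exact WH_top (by omega)
  · unfold cp
    rw [WH_top (by omega), mul_zero]

/-- the bound of the weights which is needed -/
def WBound (n m : ℕ) : Prop :=
  ∀ h : ℕ, 2 ≤ h → h < m → b n h ≤ 147 / 100 →
    WH n m h ≤ 177 / 100 / b n h * (1 + 4 / 5 / (h : ℝ) ^ 2) - 6 / 5

theorem load1_main {m n g : ℕ} (hm : 4 ≤ m) (hn : n = 2 * m + 1) (hg : 2 ≤ g) (hgm : 2 * g ≤ m)
    (h147 : b n (2 * g + 1) ≤ 147 / 100) (hW : WBound n m) :
    cm n m g * ((365 * tan (b n (g - 1)) + 1330 * tan (b n (g - 1)) ^ 2) / 1000)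
      + c0 n m g * ((365 * tan (b n g) + 1330 * tan (b n g) ^ 2) / 1000)
      + cp n m g * ((365 * tan (b n (g + 1)) + 1330 * tan (b n (g + 1)) ^ 2) / 1000)
      + max (-phi n g) 0 ≤ 1 := by
  have hk := arr_le hm hn hg hgm h147 hW (α := 73 / 200) (β := 133 / 100) (x := tan (b n g))
    (s := 1 / (g : ℝ)) (by norm_num) (by norm_num) rfl rfl
  have hk' : cm n m g * ((365 * tan (b n (g - 1)) + 1330 * tan (b n (g - 1)) ^ 2) / 1000)
      + c0 n m g * ((365 * tan (b n g) + 1330 * tan (b n g) ^ 2) / 1000)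
      + cp n m g * ((365 * tan (b n (g + 1)) + 1330 * tan (b n (g + 1)) ^ 2) / 1000)
      ≤ FF (73 / 200) (133 / 100) (tan (b n g)) (1 / (g : ℝ)) := by
    refine le_trans (le_of_eq ?_) hk
    ring
  have hx1 : tan (b n g) ≤ 1 := tan_le_one_of (by omega) (by omega)
  have hx0 : 0 ≤ tan (b n g) := by
    apply tan_nonneg_of_nonneg_of_le_pi_div_two
    · unfold b; positivity
    · exact (b_lt_half hn (by omega)).le
  have hph := max_phi_le hn (by omega : g ≤ m) rfl hx0 hx1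
  have hF : FF (73 / 200) (133 / 100) (tan (b n g)) (1 / (g : ℝ))
      + tan (b n g) ^ 2 * (109 / 100 - 155 / 100 * tan (b n g) ^ 2 + tan (b n g) ^ 4 / 2) ≤ 1 := by
    rcases (show g = 2 ∨ g = 3 ∨ 4 ≤ g by omega) with h | h | h
    · subst h
      exact_mod_cast FF_half hx0 hx1
    · subst h
      exact_mod_cast FF_third hx0 hx1
    · apply FF_quarter hx0 hx1 (by positivity)
      exact one_div_le_one_div_of_le (by norm_num) (by exact_mod_cast h)
  linarith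

theorem load2_main {m n g : ℕ} (hm : 4 ≤ m) (hn : n = 2 * m + 1) (hg : 2 ≤ g) (hgm : 2 * g ≤ m)
    (h147 : b n (2 * g + 1) ≤ 147 / 100) (hW : WBound n m) :
    cm n m g * tan (b n (g - 1)) ^ 2 + c0 n m g * tan (b n g) ^ 2
      + cp n m g * tan (b n (g + 1)) ^ 2 + max (-phi n g) 0 / sin (b n g) ≤ 1 := by
  have hk := arr_le hm hn hg hgm h147 hW (α := 0) (β := 1) (x := tan (b n g))
    (s := 1 / (g : ℝ)) (by norm_num) (by norm_num) rfl rfl
  have hk' : cm n m g * tan (b n (g - 1)) ^ 2 + c0 n m g * tan (b n g) ^ 2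
      + cp n m g * tan (b n (g + 1)) ^ 2 ≤ FF 0 1 (tan (b n g)) (1 / (g : ℝ)) := by
    refine le_trans (le_of_eq ?_) hk
    ring
  have hx1 : tan (b n g) ≤ 1 := tan_le_one_of (by omega) (by omega)
  have hx0 : 0 ≤ tan (b n g) := by
    apply tan_nonneg_of_nonneg_of_le_pi_div_two
    · unfold b; positivity
    · exact (b_lt_half hn (by omega)).le
  have hph := max_phi_div_le hn (by omega : 1 ≤ g) (by omega : g ≤ m) rfl hx0 hx1
  have hF : FF 0 1 (tan (b n g)) (1 / (g : ℝ))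
      + tan (b n g) * (109 / 100 - 155 / 100 * tan (b n g) ^ 2 + tan (b n g) ^ 4 / 2)
        * (1 + tan (b n g) ^ 2 / 2) ≤ 1 := by
    rcases (show g = 2 ∨ g = 3 ∨ 4 ≤ g by omega) with h | h | h
    · subst h
      exact_mod_cast FF2_half hx0 hx1
    · subst h
      exact_mod_cast FF2_third hx0 hx1
    · apply FF2_quarter hx0 hx1 (by positivity)
      exact one_div_le_one_div_of_le (by norm_num) (by exact_mod_cast h)
  linarith

end RP38
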