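import Pool.Agent.RP39.Trig

/-!
# The arrivals of a class, main region (MP_d975fc_co, S11783)
-/

namespace RP38

open Real

theorem frac_mono {α β x z Z : ℝ} (hα : 0 ≤ α) (hβ : 0 ≤ β) (hx : 0 < x) (hz : 0 ≤ z) (hzZ : z ≤ Z) :
    x / (x + z) * (α * z + β * z ^ 2) ≤ x / (x + Z) * (α * Z + β * Z ^ 2) := by
  have hZ : 0 ≤ Z := hz.trans hzZ
  have h1 : x * z / (x + z) ≤ x * Z / (x + Z) := by
    rw [div_le_div_iff₀ (by linarith) (by linarith)]
    nlinarith [mul_nonneg (mul_nonneg hx.le hx.le) (sub_nonneg.mpr hzZ)]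
  have h2 : x * z / (x + z) * z ≤ x * Z / (x + Z) * Z :=
    mul_le_mul h1 hzZ hz (by positivity)
  have e1 : x / (x + z) * (α * z + β * z ^ 2)
      = α * (x * z / (x + z)) + β * (x * z / (x + z) * z) := by ring
  have e2 : x / (x + Z) * (α * Z + β * Z ^ 2)
      = α * (x * Z / (x + Z)) + β * (x * Z / (x + Z) * Z) := by ring
  rw [e1, e2]
  exact add_le_add (mul_le_mul_of_nonneg_left h1 hα) (mul_le_mul_of_nonneg_left h2 hβ)

theorem kp_eq {α β x s p : ℝ} (hx : x ≠ 0) (hp : 0 < p) (hs : 0 < s) :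
    x / (x + x * (1 + s) / p) * (α * (x * (1 + s) / p) + β * (x * (1 + s) / p) ^ 2)
      = x * (α * (1 + s) / (1 + s + p) + β * x * (1 + s) ^ 2 / (p * (1 + s + p))) := by
  have h1 : p ≠ 0 := hp.ne'
  have h2 : 1 + s + p ≠ 0 := by positivity
  have e1 : x + x * (1 + s) / p = x * (1 + s + p) / p := by
    field_simp
    ring
  rw [e1]
  field_simp

theorem b_lt_half {m n h : ℕ} (hn : n = 2 * m + 1) (hh : h ≤ m) : b n h < π / 2 := by
  unfold b
  have h1 : (0 : ℝ) < n := by rw [hn]; positivity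
  have h2 : 2 * (h : ℝ) < n := by
    have : 2 * h < n := by omega
    exact_mod_cast this
  rw [div_lt_div_iff₀ h1 (by norm_num)]
  nlinarith [pi_pos]

theorem sh_tan {m n g k : ℕ} (hn : n = 2 * m + 1) (hg : g ≤ m) (hk : k ≤ m) :
    sh n g k = tan (b n g) / (tan (b n g) + tan (b n k)) := by
  have hA : 0 < cos (b n g) := by
    apply cos_pos_of_mem_Ioo
    constructor
    · have : 0 ≤ b n g := by unfold b; positivity
      linarith [pi_pos]
    · exact b_lt_half hn hg
  have hB : 0 < cos (b n k) := by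
    apply cos_pos_of_mem_Ioo
    constructor
    · have : 0 ≤ b n k := by unfold b; positivity
      linarith [pi_pos]
    · exact b_lt_half hn hk
  have e : b n (g + k) = b n g + b n k := by
    unfold b
    push_cast
    ring
  unfold sh
  rw [e, sin_mul_cos_div hA.ne' hB.ne']

/-- the upper bound of the three arrivals in the main region -/
theorem arr_le {m n g : ℕ} (hm : 4 ≤ m) (hn : n = 2 * m + 1) (hg : 2 ≤ g) (hgm : 2 * g ≤ m)
    (h147 : b n (2 * g + 1) ≤ 147 / 100)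
    (hW : ∀ h : ℕ, 2 ≤ h → h < m → b n h ≤ 147 / 100 →
      WH n m h ≤ 177 / 100 / b n h * (1 + 4 / 5 / (h : ℝ) ^ 2) - 6 / 5)
    {α β x s : ℝ} (hα : 0 ≤ α) (hβ : 0 ≤ β) (hx : x = tan (b n g)) (hs : s = 1 / (g : ℝ)) :
    cm n m g * (α * tan (b n (g - 1)) + β * tan (b n (g - 1)) ^ 2)
      + c0 n m g * (α * tan (b n g) + β * tan (b n g) ^ 2)
      + cp n m g * (α * tan (b n (g + 1)) + β * tan (b n (g + 1)) ^ 2)
    ≤ 177 / 100 * (1 + x ^ 2 / 3) * (1 / 2 * (1 + s ^ 2 / 5) * (α + β * x)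
        + (1 + 4 / 5 * s ^ 2 / (2 + s) ^ 2) / (2 + s)
          * (α * (1 + s) / (2 + s - s * x ^ 2)
            + β * x * (1 + s) ^ 2 / ((1 - s * x ^ 2) * (2 + s - s * x ^ 2)))
        + (1 + 4 / 5 * s ^ 2 / (2 - s) ^ 2) / (2 - s)
          * (α * (1 - s) / (2 - s) + β * x * (1 - s) ^ 2 / (2 - s)))
      - 6 / 5 * x * (α + β * x
        + (α * (1 + s) / (2 + s - s * x ^ 2)
            + β * x * (1 + s) ^ 2 / ((1 - s * x ^ 2) * (2 + s - s * x ^ 2)))
        + (α * (1 - s) / (2 - s) + β * x * (1 - s) ^ 2 / (2 - s))) := by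
  have hgr : (2 : ℝ) ≤ g := by exact_mod_cast hg
  have hg0 : (0 : ℝ) < g := by linarith
  have hs0 : 0 < s := by rw [hs]; positivity
  have hs1 : s ≤ 1 / 2 := by
    rw [hs]
    exact one_div_le_one_div_of_le (by norm_num) hgr
  have hn0 : (0 : ℝ) < n := by rw [hn]; positivity
  have hsg : s * g = 1 := by rw [hs]; field_simp
  set G := b n g with hG
  have hG0 : 0 < G := by rw [hG]; unfold b; positivity
  -- the other angles
  have e0 : b n (2 * g) = 2 * G := by rw [hG]; unfold b; push_cast; ring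
  have ep1 : b n (g + 1) = G + s * G := by
    rw [hG, hs]; unfold b; push_cast; field_simp
  have ep2 : b n (2 * g + 1) = G * (2 + s) := by
    rw [hG, hs]; unfold b; push_cast; field_simp
  have em1 : b n (g - 1) = (1 - s) * G := by
    rw [hG, hs]; unfold b
    rw [Nat.cast_sub (by omega : 1 ≤ g)]; push_cast; field_simp
  have em2 : b n (2 * g - 1) = G * (2 - s) := by
    rw [hG, hs]; unfold b
    rw [Nat.cast_sub (by omega : 1 ≤ 2 * g)]; push_cast; field_simp
  have hpi := pi_gt_d2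
  have hG2 : G * (2 + s) ≤ 147 / 100 := by rw [← ep2]; exact h147
  have hG4 : G < π / 4 := by nlinarith
  have hx0 : 0 < x := by rw [hx]; exact tan_pos_of_pos_of_lt_pi_div_two hG0 (by linarith)
  have hx1 : x < 1 := by
    rw [hx, ← tan_pi_div_four]
    exact tan_lt_tan_of_nonneg_of_lt_pi_div_two hG0.le (by linarith) hG4
  have hxx : x ^ 2 < 1 := by nlinarith
  have hsx : s * x ^ 2 < 1 := by nlinarith
  have hxG : x / G ≤ 1 + x ^ 2 / 3 := by
    have := three_mul_tan_le hG0.le (by linarith : G < π / 2)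
    rw [← hx] at this
    rw [div_le_iff₀ hG0]
    nlinarith
  -- tangents of the neighbours
  have tm : tan (b n (g - 1)) ≤ (1 - s) * x := by
    rw [em1, hx]
    exact tan_mul_le (by linarith) (by linarith) hG0.le (by linarith)
  have tm0 : 0 ≤ tan (b n (g - 1)) := by
    apply tan_nonneg_of_nonneg_of_le_pi_div_two
    · unfold b; positivity
    · exact (b_lt_half hn (by omega)).le
  have tp0 : 0 ≤ tan (b n (g + 1)) := by
    apply tan_nonneg_of_nonneg_of_le_pi_div_two
    · unfold b; positivity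
    · exact (b_lt_half hn (by omega)).le
  have tp : tan (b n (g + 1)) ≤ x * (1 + s) / (1 - s * x ^ 2) := by
    have hy := tan_mul_le (t := s) (G := G) hs0.le (by linarith) hG0.le (by linarith)
    rw [← hx] at hy
    have hy0 : 0 ≤ tan (s * G) := by
      apply tan_nonneg_of_nonneg_of_le_pi_div_two (by positivity)
      nlinarith
    have hc1 : cos G ≠ 0 := (cos_pos_of_mem_Ioo ⟨by linarith, by linarith⟩).ne'
    have hc2 : cos (s * G) ≠ 0 := by
      have h1 : 0 ≤ s * G := by positivity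
      have h2 : s * G < π / 2 := by nlinarith
      exact (cos_pos_of_mem_Ioo ⟨by linarith, h2⟩).ne'
    have h0 : tan (G + s * G) = (tan G + tan (s * G)) / (1 - tan G * tan (s * G)) := by
      rw [tan_eq_sin_div_cos, tan_eq_sin_div_cos, tan_eq_sin_div_cos, sin_add, cos_add]
      have e1 : sin G / cos G + sin (s * G) / cos (s * G)
          = (sin G * cos (s * G) + cos G * sin (s * G)) / (cos G * cos (s * G)) := by
        field_simp
      have e2 : 1 - sin G / cos G * (sin (s * G) / cos (s * G))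
          = (cos G * cos (s * G) - sin G * sin (s * G)) / (cos G * cos (s * G)) := by
        field_simp
      rw [e1, e2, div_div_div_cancel_right₀ (mul_ne_zero hc1 hc2)]
    rw [ep1, h0, ← hx]
    have hp : 0 < 1 - s * x ^ 2 := by linarith
    have hq : 1 - s * x ^ 2 ≤ 1 - x * tan (s * G) := by nlinarith
    apply div_le_div₀ (by positivity) (by nlinarith) hp hq
  -- the weights
  have hG147 : G * 2 ≤ 147 / 100 := by nlinarith
  have hGm147 : G * (2 - s) ≤ 147 / 100 := by nlinarith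
  have w0 : c0 n m g ≤ 177 / 100 / (2 * G) * (1 + s ^ 2 / 5) - 6 / 5 := by
    unfold c0
    by_cases h : 2 * g < m
    · have := hW (2 * g) (by omega) h (by rw [e0]; linarith)
      rw [e0] at this
      have e : 4 / 5 / ((2 * g : ℕ) : ℝ) ^ 2 = s ^ 2 / 5 := by
        rw [hs]; push_cast; field_simp; norm_num
      rwa [e] at this
    · rw [WH_top (by omega)]
      have h1 : 6 / 5 ≤ 177 / 100 / (2 * G) := by
        rw [le_div_iff₀ (by positivity)]
        linarith
      nlinarith [sq_nonneg s]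
  have wp : WH n m (2 * g + 1)
      ≤ 177 / 100 / (G * (2 + s)) * (1 + 4 / 5 * s ^ 2 / (2 + s) ^ 2) - 6 / 5 := by
    by_cases h : 2 * g + 1 < m
    · have := hW (2 * g + 1) (by omega) h h147
      rw [ep2] at this
      have e : 4 / 5 / ((2 * g + 1 : ℕ) : ℝ) ^ 2 = 4 / 5 * s ^ 2 / (2 + s) ^ 2 := by
        rw [hs]; push_cast; field_simp
      rwa [e] at this
    · rw [WH_top (by omega)]
      have h1 : 6 / 5 ≤ 177 / 100 / (G * (2 + s)) := by
        rw [le_div_iff₀ (by positivity)]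
        linarith
      have h2 : 0 ≤ 4 / 5 * s ^ 2 / (2 + s) ^ 2 := by positivity
      nlinarith
  have h2s : 0 < 2 - s := by linarith
  have wm : WH n m (2 * g - 1)
      ≤ 177 / 100 / (G * (2 - s)) * (1 + 4 / 5 * s ^ 2 / (2 - s) ^ 2) - 6 / 5 := by
    have := hW (2 * g - 1) (by omega) (by omega) (by rw [em2]; exact hGm147)
    rw [em2] at this
    have hc : ((2 * g - 1 : ℕ) : ℝ) = 2 * g - 1 := by
      rw [Nat.cast_sub (by omega : 1 ≤ 2 * g)]; push_cast; ring
    have hc0 : (2 * (g : ℝ) - 1) ≠ 0 := by nlinarith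
    have hc1 : (2 - s) ≠ 0 := h2s.ne'
    have e : 4 / 5 / ((2 * g - 1 : ℕ) : ℝ) ^ 2 = 4 / 5 * s ^ 2 / (2 - s) ^ 2 := by
      rw [hc]
      have : 2 * (g : ℝ) - 1 = (2 - s) * g := by rw [sub_mul, hsg]
      rw [this]
      have : s ^ 2 = 1 / (g : ℝ) ^ 2 := by rw [hs]; ring
      rw [this]
      field_simp
    rwa [e] at this
  -- the kernels
  have hc0' : 0 ≤ c0 n m g := c0_nonneg' hn g
  have hWp0 : 0 ≤ WH n m (2 * g + 1) := WH_nonneg' hn _
  have hWm0 : 0 ≤ WH n m (2 * g - 1) := WH_nonneg' hn _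
  have kp : sh n g (g + 1) * (α * tan (b n (g + 1)) + β * tan (b n (g + 1)) ^ 2)
      ≤ x * (α * (1 + s) / (2 + s - s * x ^ 2)
            + β * x * (1 + s) ^ 2 / ((1 - s * x ^ 2) * (2 + s - s * x ^ 2))) := by
    rw [sh_tan hn (by omega) (by omega), ← hG, ← hx]
    refine (frac_mono hα hβ hx0 tp0 tp).trans (le_of_eq ?_)
    have hp : 0 < 1 - s * x ^ 2 := by linarith
    rw [kp_eq hx0.ne' hp hs0]
    have e2 : 1 + s + (1 - s * x ^ 2) = 2 + s - s * x ^ 2 := by ring
    rw [e2]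
  have km : sh n g (g - 1) * (α * tan (b n (g - 1)) + β * tan (b n (g - 1)) ^ 2)
      ≤ x * (α * (1 - s) / (2 - s) + β * x * (1 - s) ^ 2 / (2 - s)) := by
    rw [sh_tan hn (by omega) (by omega), ← hG, ← hx]
    refine (frac_mono hα hβ hx0 tm0 tm).trans (le_of_eq ?_)
    have hp2 : 2 - s ≠ 0 := h2s.ne'
    have e1 : x + (1 - s) * x = x * (2 - s) := by ring
    rw [e1]
    field_simp
  set P := α * (1 + s) / (2 + s - s * x ^ 2)
            + β * x * (1 + s) ^ 2 / ((1 - s * x ^ 2) * (2 + s - s * x ^ 2)) with hP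
  set Q := α * (1 - s) / (2 - s) + β * x * (1 - s) ^ 2 / (2 - s) with hQ
  have hP0 : 0 ≤ P := by
    have h1 : 0 < 1 - s * x ^ 2 := by linarith
    have h2 : 0 < 2 + s - s * x ^ 2 := by linarith
    rw [hP]; positivity
  have hQ0 : 0 ≤ Q := by
    have h1 : 0 ≤ 1 - s := by linarith
    rw [hQ]; positivity
  have T0 : c0 n m g * (α * tan G + β * tan G ^ 2)
      ≤ 177 / 100 * (1 + x ^ 2 / 3) * (1 / 2 * (1 + s ^ 2 / 5) * (α + β * x))
        - 6 / 5 * x * (α + β * x) := by
    rw [← hx]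
    have hk : 0 ≤ α * x + β * x ^ 2 := by positivity
    have h1 := mul_le_mul_of_nonneg_right w0 hk
    have h2 : (177 / 100 / (2 * G) * (1 + s ^ 2 / 5) - 6 / 5) * (α * x + β * x ^ 2)
        = 177 / 100 * (x / G) * (1 / 2 * (1 + s ^ 2 / 5) * (α + β * x))
          - 6 / 5 * x * (α + β * x) := by
      field_simp
    have h3 : 177 / 100 * (x / G) * (1 / 2 * (1 + s ^ 2 / 5) * (α + β * x))
        ≤ 177 / 100 * (1 + x ^ 2 / 3) * (1 / 2 * (1 + s ^ 2 / 5) * (α + β * x)) := by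
      apply mul_le_mul_of_nonneg_right _ (by positivity)
      linarith
    linarith
  have Tp : cp n m g * (α * tan (b n (g + 1)) + β * tan (b n (g + 1)) ^ 2)
      ≤ 177 / 100 * (1 + x ^ 2 / 3) * ((1 + 4 / 5 * s ^ 2 / (2 + s) ^ 2) / (2 + s) * P)
        - 6 / 5 * x * P := by
    have h0 : cp n m g * (α * tan (b n (g + 1)) + β * tan (b n (g + 1)) ^ 2)
        = WH n m (2 * g + 1) * (sh n g (g + 1)
          * (α * tan (b n (g + 1)) + β * tan (b n (g + 1)) ^ 2)) := by
      unfold cp; ring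
    have h1 := mul_le_mul_of_nonneg_left kp hWp0
    have h2 := mul_le_mul_of_nonneg_right wp (mul_nonneg hx0.le hP0)
    have h3 : (177 / 100 / (G * (2 + s)) * (1 + 4 / 5 * s ^ 2 / (2 + s) ^ 2) - 6 / 5) * (x * P)
        = 177 / 100 * (x / G) * ((1 + 4 / 5 * s ^ 2 / (2 + s) ^ 2) / (2 + s) * P)
          - 6 / 5 * x * P := by
      field_simp
    have h4 : 177 / 100 * (x / G) * ((1 + 4 / 5 * s ^ 2 / (2 + s) ^ 2) / (2 + s) * P)
        ≤ 177 / 100 * (1 + x ^ 2 / 3) * ((1 + 4 / 5 * s ^ 2 / (2 + s) ^ 2) / (2 + s) * P) := by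
      apply mul_le_mul_of_nonneg_right _ (by positivity)
      linarith
    linarith
  have Tm : cm n m g * (α * tan (b n (g - 1)) + β * tan (b n (g - 1)) ^ 2)
      ≤ 177 / 100 * (1 + x ^ 2 / 3) * ((1 + 4 / 5 * s ^ 2 / (2 - s) ^ 2) / (2 - s) * Q)
        - 6 / 5 * x * Q := by
    have h0 : cm n m g * (α * tan (b n (g - 1)) + β * tan (b n (g - 1)) ^ 2)
        = WH n m (2 * g - 1) * (sh n g (g - 1)
          * (α * tan (b n (g - 1)) + β * tan (b n (g - 1)) ^ 2)) := by
      unfold cm; rw [if_pos hg]; ring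
    have h1 := mul_le_mul_of_nonneg_left km hWm0
    have h2 := mul_le_mul_of_nonneg_right wm (mul_nonneg hx0.le hQ0)
    have h3 : (177 / 100 / (G * (2 - s)) * (1 + 4 / 5 * s ^ 2 / (2 - s) ^ 2) - 6 / 5) * (x * Q)
        = 177 / 100 * (x / G) * ((1 + 4 / 5 * s ^ 2 / (2 - s) ^ 2) / (2 - s) * Q)
          - 6 / 5 * x * Q := by
      field_simp
    have h4 : 177 / 100 * (x / G) * ((1 + 4 / 5 * s ^ 2 / (2 - s) ^ 2) / (2 - s) * Q)
        ≤ 177 / 100 * (1 + x ^ 2 / 3) * ((1 + 4 / 5 * s ^ 2 / (2 - s) ^ 2) / (2 - s) * Q) := by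
      apply mul_le_mul_of_nonneg_right _ (by positivity)
      linarith
    linarith
  have := add_le_add (add_le_add Tm T0) Tp
  refine this.trans (le_of_eq ?_)
  ring

end RP38
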