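import Mathlib

/-!
# Bounds of the arrivals of a class for `s = 1/g ≤ 1/4` (MP_d975fc_co, S11783)
-/

namespace RP38

/-- the first-order part -/
theorem Ha_le {s u : ℝ} (hs0 : 0 ≤ s) (hs1 : s ≤ 1 / 4) (hu0 : 0 ≤ u) (hu1 : u ≤ 1) :
    1 / 2 * (1 + s ^ 2 / 5) + (1 + 4 / 5 * s ^ 2 / (2 + s) ^ 2) / (2 + s) * ((1 + s) / (2 + s - s * u))
      + (1 + 4 / 5 * s ^ 2 / (2 - s) ^ 2) / (2 - s) * ((1 - s) / (2 - s))
      ≤ 1 + 3 / 640 + u / 32 := by
  have hp : 0 < 2 + s := by linarith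
  have hm : 0 < 2 - s := by linarith
  have hsu : s * u ≤ s := by nlinarith
  have hsu0 : 0 ≤ s * u := by positivity
  have hq : 0 < 2 + s - s * u := by linarith
  set z := s ^ 2 / (2 + s) ^ 2 with hz
  set w := s ^ 2 / (2 - s) ^ 2 with hw
  have hz0 : 0 ≤ z := by positivity
  have hw0 : 0 ≤ w := by positivity
  have e1 : (1 + 4 / 5 * s ^ 2 / (2 + s) ^ 2) / (2 + s) * ((1 + s) / (2 + s - s * u))
      = 1 / 4 * ((1 - z) * (1 + 4 / 5 * z)) * (1 + s * u / (2 + s - s * u)) := by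
    rw [hz]; field_simp; ring
  have e2 : (1 + 4 / 5 * s ^ 2 / (2 - s) ^ 2) / (2 - s) * ((1 - s) / (2 - s))
      = 1 / 4 * ((1 - w) * (1 + 4 / 5 * w)) := by
    rw [hw]; field_simp; ring
  have hr0 : 0 ≤ s * u / (2 + s - s * u) := by positivity
  have hr : s * u / (2 + s - s * u) ≤ s * u / 2 := by
    apply div_le_div_of_nonneg_left hsu0 (by norm_num) (by linarith)
  have hz1 : (1 - z) * (1 + 4 / 5 * z) ≤ 1 - z / 5 := by nlinarith
  have hw1 : (1 - w) * (1 + 4 / 5 * w) ≤ 1 - w / 5 := by nlinarith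
  have hA : 1 / 4 * ((1 - z) * (1 + 4 / 5 * z)) * (1 + s * u / (2 + s - s * u))
      ≤ 1 / 4 - z / 20 + s * u / 8 := by
    have h1 : (1 - z) * (1 + 4 / 5 * z) ≤ 1 := by linarith
    have h2 : (1 - z) * (1 + 4 / 5 * z) * (s * u / (2 + s - s * u)) ≤ 1 * (s * u / (2 + s - s * u)) :=
      mul_le_mul_of_nonneg_right h1 hr0
    nlinarith
  have hzw : s ^ 2 / 2 ≤ z + w := by
    have : z + w - s ^ 2 / 2 = s ^ 4 * (12 - s ^ 2) / (2 * ((2 + s) ^ 2 * (2 - s) ^ 2)) := by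
      rw [hz, hw]; field_simp; ring
    have h2 : 0 ≤ s ^ 4 * (12 - s ^ 2) / (2 * ((2 + s) ^ 2 * (2 - s) ^ 2)) := by
      have : 0 ≤ 12 - s ^ 2 := by nlinarith
      positivity
    linarith
  rw [e1, e2]
  nlinarith

/-- the quadratic part -/
theorem Hb_le {s u : ℝ} (hs0 : 0 ≤ s) (hs1 : s ≤ 1 / 4) (hu0 : 0 ≤ u) (hu1 : u ≤ 1) :
    1 / 2 * (1 + s ^ 2 / 5)
      + (1 + 4 / 5 * s ^ 2 / (2 + s) ^ 2) / (2 + s) * ((1 + s) ^ 2 / ((1 - s * u) * (2 + s - s * u)))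
      + (1 + 4 / 5 * s ^ 2 / (2 - s) ^ 2) / (2 - s) * ((1 - s) ^ 2 / (2 - s))
      ≤ 1 + 3 / 640 + 1169 / 10000 * u * (1 + u / 3) := by
  have hp : 0 < 2 + s := by linarith
  have hm : 0 < 2 - s := by linarith
  have hsu : s * u ≤ s := by nlinarith
  have hsu4 : s * u ≤ u / 4 := by nlinarith
  have hsu0 : 0 ≤ s * u := by positivity
  have hq : 0 < 2 + s - s * u := by linarith
  have hv : 0 < 1 - s * u := by linarith
  set A := (1 + 4 / 5 * s ^ 2 / (2 + s) ^ 2) * ((1 + s) / (2 + s)) ^ 2 with hA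
  set B := (1 + 4 / 5 * s ^ 2 / (2 - s) ^ 2) * ((1 - s) / (2 - s)) ^ 2 with hB
  have e1 : (1 + 4 / 5 * s ^ 2 / (2 + s) ^ 2) / (2 + s) * ((1 + s) ^ 2 / ((1 - s * u) * (2 + s - s * u)))
      = A * (1 + s * u / (1 - s * u) * (1 + 1 / (2 + s - s * u))) := by
    have h1 : 1 + s * u / (1 - s * u) * (1 + 1 / (2 + s - s * u))
        = (2 + s) / ((1 - s * u) * (2 + s - s * u)) := by
      have h2 := hq.ne'
      have h3 := hv.ne'
      rw [eq_div_iff (mul_ne_zero h3 h2)]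
      have e4 : s * u / (1 - s * u) * (1 - s * u) = s * u := div_mul_cancel₀ _ h3
      have e5 : 1 / (2 + s - s * u) * (2 + s - s * u) = 1 := by
        rw [one_div, inv_mul_cancel₀ h2]
      have : (1 + s * u / (1 - s * u) * (1 + 1 / (2 + s - s * u)))
          * ((1 - s * u) * (2 + s - s * u))
          = (1 - s * u) * (2 + s - s * u) + (s * u / (1 - s * u) * (1 - s * u))
            * ((2 + s - s * u) + 1 / (2 + s - s * u) * (2 + s - s * u)) := by ring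
      rw [this, e4, e5]
      ring
    rw [h1, hA]
    generalize (1 - s * u) * (2 + s - s * u) = q
    field_simp
  have e2 : (1 + 4 / 5 * s ^ 2 / (2 - s) ^ 2) / (2 - s) * ((1 - s) ^ 2 / (2 - s)) = B := by
    rw [hB]; field_simp
  have hA1 : A ≤ 25 / 81 * (1 + 4 / 405) := by
    rw [hA]
    have h1 : (1 + s) / (2 + s) ≤ 5 / 9 := by
      rw [div_le_div_iff₀ hp (by norm_num)]; linarith
    have h0 : 0 ≤ (1 + s) / (2 + s) := by positivity
    have h2 : s / (2 + s) ≤ 1 / 9 := by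
      rw [div_le_div_iff₀ hp (by norm_num)]; linarith
    have h3 : 0 ≤ s / (2 + s) := by positivity
    have h4 : 4 / 5 * s ^ 2 / (2 + s) ^ 2 = 4 / 5 * (s / (2 + s)) ^ 2 := by
      rw [div_pow]; ring
    rw [h4]
    have h5 : ((1 + s) / (2 + s)) ^ 2 ≤ 25 / 81 := by nlinarith
    have h6 : (s / (2 + s)) ^ 2 ≤ 1 / 81 := by nlinarith
    have h7 : 1 + 4 / 5 * (s / (2 + s)) ^ 2 ≤ 1 + 4 / 405 := by linarith
    have := mul_le_mul h7 h5 (by positivity) (by norm_num)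
    linarith
  have hA0 : 0 ≤ A := by rw [hA]; positivity
  have hE : s * u / (1 - s * u) * (1 + 1 / (2 + s - s * u)) ≤ 3 / 8 * u * (1 + u / 3) := by
    have h1 : 1 / (2 + s - s * u) ≤ 1 / 2 :=
      one_div_le_one_div_of_le (by norm_num) (by linarith)
    have h2 : s * u / (1 - s * u) ≤ u / 4 * (1 + u / 3) := by
      rw [div_le_iff₀ hv]
      nlinarith [mul_nonneg hu0 hu0, mul_nonneg hu0 (sub_nonneg.mpr hu1)]
    have h3 : 0 ≤ s * u / (1 - s * u) := by positivity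
    have h4 : 0 ≤ 1 / (2 + s - s * u) := by positivity
    have := mul_le_mul h2 (show 1 + 1 / (2 + s - s * u) ≤ 3 / 2 by linarith) (by linarith)
      (by positivity)
    linarith
  have hE0 : 0 ≤ s * u / (1 - s * u) * (1 + 1 / (2 + s - s * u)) := by positivity
  have hAE : A * (s * u / (1 - s * u) * (1 + 1 / (2 + s - s * u)))
      ≤ 1169 / 10000 * u * (1 + u / 3) := by
    have := mul_le_mul hA1 hE hE0 (by norm_num)
    have h5 : 0 ≤ u * (1 + u / 3) := by positivity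
    nlinarith
  have hAB : 1 / 2 * (1 + s ^ 2 / 5) + A + B ≤ 1 + 3 / 640 := by
    have h1 : 1 + 3 / 40 * s ^ 2 - (1 / 2 * (1 + s ^ 2 / 5) + A + B)
        = s ^ 2 * (24 / 5 * s ^ 2 - 14 / 5 * s ^ 4 - 27 / 10 * s ^ 6 - 1 / 40 * s ^ 8)
          / ((2 + s) ^ 4 * (2 - s) ^ 4) := by
      rw [hA, hB]; field_simp; ring
    have h2 : 0 ≤ s ^ 2 * (24 / 5 * s ^ 2 - 14 / 5 * s ^ 4 - 27 / 10 * s ^ 6 - 1 / 40 * s ^ 8)
          / ((2 + s) ^ 4 * (2 - s) ^ 4) := by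
      have ht : s ^ 2 ≤ 1 / 16 := by nlinarith
      have ht0 : 0 ≤ s ^ 2 := by positivity
      have : 24 / 5 * s ^ 2 - 14 / 5 * s ^ 4 - 27 / 10 * s ^ 6 - 1 / 40 * s ^ 8
          = s ^ 2 * (24 / 5 - 14 / 5 * s ^ 2 - 27 / 10 * (s ^ 2 * s ^ 2) - 1 / 40 * (s ^ 2 * s ^ 2 * s ^ 2)) := by
        ring
      have h3 : s ^ 2 * s ^ 2 ≤ 1 := by nlinarith
      have h4 : s ^ 2 * s ^ 2 * s ^ 2 ≤ 1 := by nlinarith [mul_nonneg ht0 ht0]
      have h5 : 0 ≤ 24 / 5 - 14 / 5 * s ^ 2 - 27 / 10 * (s ^ 2 * s ^ 2) - 1 / 40 * (s ^ 2 * s ^ 2 * s ^ 2) := by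
        linarith
      rw [this]
      positivity
    nlinarith
  rw [e1, e2]
  nlinarith

theorem Ja_ge {s u : ℝ} (hs0 : 0 ≤ s) (hs1 : s ≤ 1 / 4) (hu0 : 0 ≤ u) (hu1 : u ≤ 1) :
    2 - 1 / 63 ≤ 1 + (1 + s) / (2 + s - s * u) + (1 - s) / (2 - s) := by
  have hp : 0 < 2 + s := by linarith
  have hm : 0 < 2 - s := by linarith
  have hsu : s * u ≤ s := by nlinarith
  have hsu0 : 0 ≤ s * u := by positivity
  have h1 : (1 + s) / (2 + s) ≤ (1 + s) / (2 + s - s * u) :=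
    div_le_div_of_nonneg_left (by linarith) (by linarith) (by linarith)
  have h2 : 1 + (1 + s) / (2 + s) + (1 - s) / (2 - s) = 2 - s ^ 2 / (4 - s ^ 2) := by
    have h3 : 4 - s ^ 2 ≠ 0 := by nlinarith
    have h4 : 4 - s ^ 2 = (2 + s) * (2 - s) := by ring
    rw [h4]
    field_simp
    ring
  have h5 : s ^ 2 / (4 - s ^ 2) ≤ 1 / 63 := by
    have : 0 < 4 - s ^ 2 := by nlinarith
    rw [div_le_div_iff₀ this (by norm_num)]
    nlinarith
  linarith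

theorem Jb_ge {s u : ℝ} (hs0 : 0 ≤ s) (hs1 : s ≤ 1 / 4) (hu0 : 0 ≤ u) (hu1 : u ≤ 1) :
    2 ≤ 1 + (1 + s) ^ 2 / ((1 - s * u) * (2 + s - s * u)) + (1 - s) ^ 2 / (2 - s) := by
  have hp : 0 < 2 + s := by linarith
  have hm : 0 < 2 - s := by linarith
  have hsu : s * u ≤ s := by nlinarith
  have hsu0 : 0 ≤ s * u := by positivity
  have hq : 0 < 2 + s - s * u := by linarith
  have hv : 0 < 1 - s * u := by linarith
  have h1 : (1 + s) ^ 2 / (2 + s) ≤ (1 + s) ^ 2 / ((1 - s * u) * (2 + s - s * u)) := by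
    apply div_le_div_of_nonneg_left (by positivity) (by positivity)
    nlinarith
  have h2 : 1 + (1 + s) ^ 2 / (2 + s) + (1 - s) ^ 2 / (2 - s) = 2 + s ^ 2 / (4 - s ^ 2) := by
    have h3 : 4 - s ^ 2 ≠ 0 := by nlinarith
    have h4 : 4 - s ^ 2 = (2 + s) * (2 - s) := by ring
    rw [h4]
    field_simp
    ring
  have h5 : 0 ≤ s ^ 2 / (4 - s ^ 2) := by
    have : 0 < 4 - s ^ 2 := by nlinarith
    positivity
  linarith

end RP38
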