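import Pool.Agent.RP38.DefsH

/-!
# Trigonometric inequalities for the loads (MP_d975fc_co, S11783)
-/

namespace RP38

open Real

theorem mul_arctan_le {t X : ℝ} (ht0 : 0 ≤ t) (ht1 : t ≤ 1) (hX : 0 ≤ X) :
    t * arctan X ≤ arctan (t * X) := by
  have hd : ∀ y : ℝ, HasDerivAt (fun y : ℝ => arctan (t * y) - t * arctan y)
      (1 / (1 + (t * y) ^ 2) * t - t * (1 / (1 + y ^ 2))) y := by
    intro y
    have h1 : HasDerivAt (fun y : ℝ => t * y) t y := by
      simpa using (hasDerivAt_id y).const_mul t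
    exact h1.arctan.sub ((hasDerivAt_arctan y).const_mul t)
  have hmono : MonotoneOn (fun y : ℝ => arctan (t * y) - t * arctan y) (Set.Ici 0) := by
    apply monotoneOn_of_deriv_nonneg (convex_Ici 0)
    · exact fun y _ => (hd y).continuousAt.continuousWithinAt
    · exact fun y _ => (hd y).differentiableAt.differentiableWithinAt
    · intro y _
      rw [(hd y).deriv]
      have h1 : (t * y) ^ 2 ≤ y ^ 2 := by
        rw [mul_pow]
        have : t ^ 2 ≤ 1 := by nlinarith
        nlinarith [sq_nonneg y]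
      have h2 : 1 / (1 + y ^ 2) ≤ 1 / (1 + (t * y) ^ 2) := by
        apply one_div_le_one_div_of_le (by positivity)
        linarith
      nlinarith
  have h := hmono (Set.mem_Ici.mpr (le_refl (0 : ℝ))) (Set.mem_Ici.mpr hX) hX
  simp only [mul_zero, arctan_zero, sub_zero] at h
  linarith

theorem tan_mul_le {t G : ℝ} (ht0 : 0 ≤ t) (ht1 : t ≤ 1) (hG0 : 0 ≤ G) (hG : G < π / 2) :
    tan (t * G) ≤ t * tan G := by
  have hX : 0 ≤ tan G := tan_nonneg_of_nonneg_of_le_pi_div_two hG0 hG.le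
  have h1 : arctan (tan G) = G := arctan_tan (by linarith [pi_pos]) hG
  have h2 := mul_arctan_le ht0 ht1 hX
  rw [h1] at h2
  have h3 : tan (t * G) ≤ tan (arctan (t * tan G)) := by
    apply (strictMonoOn_tan.monotoneOn) _ _ h2
    · constructor
      · have : 0 ≤ t * G := by positivity
        linarith [pi_pos]
      · nlinarith
    · exact ⟨neg_pi_div_two_lt_arctan _, arctan_lt_pi_div_two _⟩
  rwa [tan_arctan] at h3

/-- `1 / G ≤ (1 + x²/3)/x`, `x = tan G` -/
theorem three_mul_tan_le {G : ℝ} (hG0 : 0 ≤ G) (hG : G < π / 2) :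
    3 * tan G ≤ G * (3 + tan G ^ 2) := by
  have hX : 0 ≤ tan G := tan_nonneg_of_nonneg_of_le_pi_div_two hG0 hG.le
  have h1 : arctan (tan G) = G := arctan_tan (by linarith [pi_pos]) hG
  have hd : ∀ y : ℝ, HasDerivAt (fun y : ℝ => arctan y - 3 * y / (3 + y ^ 2))
      (1 / (1 + y ^ 2) - (3 * (3 + y ^ 2) - 3 * y * (2 * y)) / (3 + y ^ 2) ^ 2) y := by
    intro y
    have h3 : HasDerivAt (fun y : ℝ => 3 * y) 3 y := by
      simpa using (hasDerivAt_id y).const_mul 3
    have h4 : HasDerivAt (fun y : ℝ => 3 + y ^ 2) (2 * y) y := by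
      simpa using (hasDerivAt_pow 2 y).const_add 3
    exact (hasDerivAt_arctan y).sub (h3.div h4 (by positivity))
  have hmono : MonotoneOn (fun y : ℝ => arctan y - 3 * y / (3 + y ^ 2)) (Set.Ici 0) := by
    apply monotoneOn_of_deriv_nonneg (convex_Ici 0)
    · exact fun y _ => (hd y).continuousAt.continuousWithinAt
    · exact fun y _ => (hd y).differentiableAt.differentiableWithinAt
    · intro y _
      rw [(hd y).deriv]
      have h5 : 1 / (1 + y ^ 2) - (3 * (3 + y ^ 2) - 3 * y * (2 * y)) / (3 + y ^ 2) ^ 2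
          = 4 * y ^ 4 / ((1 + y ^ 2) * (3 + y ^ 2) ^ 2) := by
        field_simp
        ring
      rw [h5]
      positivity
  have h := hmono (Set.mem_Ici.mpr (le_refl (0 : ℝ))) (Set.mem_Ici.mpr hX) hX
  simp only [mul_zero, zero_div, arctan_zero, sub_zero, h1] at h
  have h6 : 3 * tan G / (3 + tan G ^ 2) ≤ G := by linarith
  rwa [div_le_iff₀ (by positivity)] at h6

/-- `sin A cos B / sin (A + B) = tan A / (tan A + tan B)` -/
theorem sin_mul_cos_div {A B : ℝ} (hA : cos A ≠ 0) (hB : cos B ≠ 0) :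
    sin A * cos B / sin (A + B) = tan A / (tan A + tan B) := by
  rw [sin_add, tan_eq_sin_div_cos, tan_eq_sin_div_cos]
  have : sin A / cos A + sin B / cos B = (sin A * cos B + cos A * sin B) / (cos A * cos B) := by
    field_simp
  rw [this, div_div_eq_mul_div]
  congr 1
  field_simp

theorem cos_two_mul_tan {G : ℝ} (h : cos G ≠ 0) :
    cos (2 * G) = (1 - tan G ^ 2) / (1 + tan G ^ 2) := by
  have h1 : 1 + tan G ^ 2 = 1 / cos G ^ 2 := by
    rw [tan_eq_sin_div_cos]
    field_simp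
    linarith [sin_sq_add_cos_sq G]
  have h2 : 1 - tan G ^ 2 = (2 * cos G ^ 2 - 1) / cos G ^ 2 := by
    rw [tan_eq_sin_div_cos]
    field_simp
    linarith [sin_sq_add_cos_sq G]
  rw [h1, h2, cos_two_mul]
  field_simp

theorem sin_sq_tan {G : ℝ} (h : cos G ≠ 0) :
    sin G ^ 2 = tan G ^ 2 / (1 + tan G ^ 2) := by
  have h1 : 1 + tan G ^ 2 = 1 / cos G ^ 2 := by
    rw [tan_eq_sin_div_cos]
    field_simp
    linarith [sin_sq_add_cos_sq G]
  rw [h1, tan_eq_sin_div_cos]
  field_simp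

/-- `-φ` in terms of the tangent -/
theorem neg_phi_tan {n g : ℕ} (h : cos (b n g) ≠ 0) :
    -phi n g = tan (b n g) ^ 2 * (1 - tan (b n g) ^ 2)
      * (1 + 5 * tan (b n g) ^ 2 + tan (b n g) ^ 4) / (1 + tan (b n g) ^ 2) ^ 4 := by
  unfold phi
  have h6 : cos (6 * b n g) = 4 * cos (2 * b n g) ^ 3 - 3 * cos (2 * b n g) := by
    have : 6 * b n g = 3 * (2 * b n g) := by ring
    rw [this, cos_three_mul]
  rw [h6, cos_two_mul_tan h, sin_sq_tan h]
  have hp : (1 + tan (b n g) ^ 2) ≠ 0 := by positivity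
  field_simp
  ring

end RP38
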